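import Pool.Agent.V7H96.GC.Round

set_option autoImplicit false
set_option linter.unusedSectionVars false

/-!
Lifts of graphs by elementary abelian `2`-groups and their characters.
-/

namespace Pool.Agent.V7H96.GC

open Finset
open scoped Classical
open Pool.Agent.V7H96.SF

/-- the sign of an element of `ZMod 2` -/
def sgn (z : ZMod 2) : ℝ := if z = 0 then 1 else -1

lemma z2 (z : ZMod 2) : z = 0 ∨ z = 1 := by revert z; decide

lemma sgn_zero : sgn 0 = 1 := by simp [sgn]

lemma sgn_one : sgn 1 = -1 := by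
  have : (1 : ZMod 2) ≠ 0 := by decide
  simp [sgn]

lemma sgn_add (a b : ZMod 2) : sgn (a + b) = sgn a * sgn b := by
  have h : (1 : ZMod 2) + 1 = 0 := by decide
  rcases z2 a with rfl | rfl <;> rcases z2 b with rfl | rfl
  · simp [sgn_zero]
  · simp [sgn_zero, sgn_one]
  · simp [sgn_zero, sgn_one]
  · rw [h, sgn_zero, sgn_one]; norm_num

lemma sgn_sq (a : ZMod 2) : sgn a * sgn a = 1 := by
  rcases z2 a with rfl | rfl
  · simp [sgn_zero]
  · simp [sgn_one]

lemma sgn_abs (a : ZMod 2) : |sgn a| = 1 := by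
  rcases z2 a with rfl | rfl
  · simp [sgn_zero]
  · simp [sgn_one]

/-- the group `(Z/2)^t` -/
abbrev AA (t : ℕ) : Type := Fin t → ZMod 2

lemma AA_self {t : ℕ} (a : AA t) : a + a = 0 := by
  funext i
  exact CharTwo.add_self_eq_zero (a i)

lemma AA_card (t : ℕ) : Fintype.card (AA t) = 2 ^ t := by
  rw [Fintype.card_fun, ZMod.card, Fintype.card_fin]

/-- characters -/
def chi {t : ℕ} (c a : AA t) : ℝ := sgn (∑ i, c i * a i)

variable {t : ℕ}

lemma chi_add (c a b : AA t) : chi c (a + b) = chi c a * chi c b := by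
  unfold chi
  rw [← sgn_add, ← sum_add_distrib]
  congr 1
  exact sum_congr rfl fun i _ => by rw [Pi.add_apply]; ring

lemma chi_comm (c a : AA t) : chi c a = chi a c := by
  unfold chi
  congr 1
  exact sum_congr rfl fun i _ => by ring

lemma chi_add_left (c d a : AA t) : chi (c + d) a = chi c a * chi d a := by
  rw [chi_comm, chi_add, chi_comm a c, chi_comm a d]

lemma chi_zero (c : AA t) : chi c 0 = 1 := by
  unfold chi; simp [sgn_zero]

lemma chi_zero_left (a : AA t) : chi 0 a = 1 := by
  unfold chi; simp [sgn_zero]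

lemma chi_abs (c a : AA t) : |chi c a| = 1 := sgn_abs _

lemma chi_sq (c a : AA t) : chi c a * chi c a = 1 := sgn_sq _

lemma exists_chi {a : AA t} (ha : a ≠ 0) : ∃ c : AA t, chi c a = -1 := by
  obtain ⟨i, hi⟩ : ∃ i, a i ≠ 0 := by
    by_contra h
    push Not at h
    exact ha (funext h)
  refine ⟨Pi.single i 1, ?_⟩
  unfold chi
  have : ∑ j, (Pi.single i 1 : AA t) j * a j = a i := by
    rw [sum_eq_single i]
    · simp
    · intro j _ hj
      rw [Pi.single_eq_of_ne hj, zero_mul]
    · intro h; exact absurd (mem_univ _) h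
  rw [this]
  rcases z2 (a i) with h | h
  · exact absurd h hi
  · rw [h, sgn_one]

lemma sum_chi (a : AA t) : ∑ c : AA t, chi c a = if a = 0 then 2 ^ t else 0 := by
  split_ifs with h
  · subst h
    simp only [chi_zero, sum_const, card_univ, AA_card, nsmul_eq_mul, mul_one]
    push_cast; rfl
  · obtain ⟨c0, hc0⟩ := exists_chi h
    have h1 : ∑ c : AA t, chi (c + c0) a = ∑ c : AA t, chi c a :=
      Equiv.sum_comp (Equiv.addRight c0) (fun c => chi c a)
    have h2 : ∑ c : AA t, chi (c + c0) a = - ∑ c : AA t, chi c a := by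
      rw [← sum_neg_distrib]
      refine sum_congr rfl fun c _ => ?_
      rw [chi_add_left, hc0]; ring
    linarith

variable {W : Type} [Fintype W]

/-- Fourier coefficients along the fibres -/
noncomputable def four (F : W × AA t → ℝ) (c : AA t) (x : W) : ℝ := ∑ a, chi c a * F (x, a)

lemma four_zero (F : W × AA t → ℝ) (x : W) : four F 0 x = ∑ a, F (x, a) := by
  unfold four
  exact sum_congr rfl fun a _ => by rw [chi_zero_left, one_mul]

lemma add_eq_zero_iff_AA (a b : AA t) : a + b = 0 ↔ b = a := by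
  constructor
  · intro h
    have : a + b + a = a := by rw [h, zero_add]
    rw [add_right_comm, AA_self, zero_add] at this
    exact this
  · rintro rfl; exact AA_self b

lemma parseval (F : W × AA t → ℝ) (x y : W) (b : AA t) :
    ∑ c, chi c b * four F c x * four F c y = 2 ^ t * ∑ a, F (x, a) * F (y, a + b) := by
  have h1 : ∀ c, chi c b * four F c x * four F c y =
      ∑ a, ∑ a', chi c (a + b + a') * (F (x, a) * F (y, a')) := by
    intro c
    unfold four
    rw [mul_assoc, sum_mul_sum, mul_sum]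
    refine sum_congr rfl fun a _ => ?_
    rw [mul_sum]
    refine sum_congr rfl fun a' _ => ?_
    rw [chi_add, chi_add]; ring
  simp_rw [h1]
  rw [sum_comm, mul_sum]
  refine sum_congr rfl fun a _ => ?_
  rw [sum_comm]
  have h2 : ∀ a', ∑ c, chi c (a + b + a') * (F (x, a) * F (y, a')) =
      if a' = a + b then 2 ^ t * (F (x, a) * F (y, a')) else 0 := by
    intro a'
    rw [← sum_mul, sum_chi]
    by_cases h : a' = a + b
    · rw [if_pos ((add_eq_zero_iff_AA _ _).2 h), if_pos h]
    · rw [if_neg (fun h' => h ((add_eq_zero_iff_AA _ _).1 h')), if_neg h, zero_mul]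
  simp_rw [h2]
  rw [sum_ite_eq' univ (a + b), if_pos (mem_univ _)]

lemma parseval_sq (F : W × AA t → ℝ) (x : W) :
    ∑ c, four F c x ^ 2 = 2 ^ t * ∑ a, F (x, a) ^ 2 := by
  have := parseval F x x 0
  simp only [chi_zero, one_mul, add_zero] at this
  simp only [sq]
  exact this

/-- the lift of a graph with voltages in `(Z/2)^t` -/
def lift (K : SimpleGraph W) (s : Sym2 W → AA t) : SimpleGraph (W × AA t) where
  Adj p q := K.Adj p.1 q.1 ∧ q.2 = p.2 + s s(p.1, q.1)
  symm := by
    constructor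
    rintro ⟨x, a⟩ ⟨y, b⟩ ⟨h1, h2⟩
    refine ⟨h1.symm, ?_⟩
    simp only at h2 ⊢
    rw [h2, Sym2.eq_swap, add_assoc, AA_self, add_zero]
  loopless := by
    constructor
    rintro ⟨x, a⟩ ⟨h1, _⟩
    exact K.loopless.irrefl _ h1

lemma lift_adj {K : SimpleGraph W} {s : Sym2 W → AA t} {p q : W × AA t} :
    (lift K s).Adj p q ↔ K.Adj p.1 q.1 ∧ q.2 = p.2 + s s(p.1, q.1) := Iff.rfl

lemma adj_lift (K : SimpleGraph W) (s : Sym2 W → AA t) (x y : W) (a b : AA t) :
    adj (lift K s) (x, a) (y, b) = if b = a + s s(x, y) then adj K x y else 0 := by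
  unfold adj
  by_cases h1 : K.Adj x y
  · by_cases h2 : b = a + s s(x, y)
    · rw [if_pos (lift_adj.2 ⟨h1, h2⟩), if_pos h1, if_pos h2]
    · rw [if_neg (fun h => h2 (lift_adj.1 h).2), if_neg h2]
  · rw [if_neg (fun h => h1 (lift_adj.1 h).1), if_neg h1]
    simp

lemma qf_lift (K : SimpleGraph W) (s : Sym2 W → AA t) (F : W × AA t → ℝ) :
    qf (lift K s) F = ∑ x, ∑ y, adj K x y * ∑ a, F (x, a) * F (y, a + s s(x, y)) := by
  unfold qf
  rw [Fintype.sum_prod_type]
  refine sum_congr rfl fun x _ => ?_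
  simp_rw [Fintype.sum_prod_type]
  rw [sum_comm]
  refine sum_congr rfl fun y _ => ?_
  rw [mul_sum]
  refine sum_congr rfl fun a _ => ?_
  simp_rw [adj_lift]
  rw [sum_eq_single (a + s s(x, y))]
  · rw [if_pos rfl]; ring
  · intro b _ hb
    rw [if_neg hb]; ring
  · intro h; exact absurd (mem_univ _) h

lemma qf_lift_pull (K : SimpleGraph W) (s : Sym2 W → AA t) (f : W → ℝ) :
    qf (lift K s) (fun p => f p.1) = 2 ^ t * qf K f := by
  rw [qf_lift]
  unfold qf
  rw [mul_sum]
  refine sum_congr rfl fun x _ => ?_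
  rw [mul_sum]
  refine sum_congr rfl fun y _ => ?_
  simp only [sum_const, card_univ, AA_card, nsmul_eq_mul]
  push_cast; ring

lemma lift_nb_card (K : SimpleGraph W) (s : Sym2 W → AA t) (p : W × AA t) :
    (nb (lift K s) p).card = (nb K p.1).card := by
  refine card_bij (fun q _ => q.1) ?_ ?_ ?_
  · intro q hq
    have := (mem_filter.1 hq).2
    exact mem_filter.2 ⟨mem_univ _, (lift_adj.1 this).1⟩
  · intro q hq r hr h
    have h1 := (lift_adj.1 (mem_filter.1 hq).2).2
    have h2 := (lift_adj.1 (mem_filter.1 hr).2).2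
    refine Prod.ext h ?_
    rw [h1, h2, h]
  · intro y hy
    refine ⟨(y, p.2 + s s(p.1, y)), mem_filter.2 ⟨mem_univ _, lift_adj.2 ⟨(mem_filter.1 hy).2, rfl⟩⟩,
      rfl⟩

/-- the form of the graph twisted by a character -/
noncomputable def tw (K : SimpleGraph W) (s : Sym2 W → AA t) (c : AA t) : Matrix W W ℝ :=
  fun x y => adj K x y * chi c (s s(x, y))

lemma tw_symm (K : SimpleGraph W) (s : Sym2 W → AA t) (c : AA t) : (tw K s c).IsSymm := by
  ext x y
  rw [Matrix.transpose_apply]
  unfold tw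
  rw [adj_symm, Sym2.eq_swap]

/-- **Decomposition of the form of a lift.** -/
lemma lift_decomp (K : SimpleGraph W) (s : Sym2 W → AA t) (F : W × AA t → ℝ) :
    2 ^ t * qf (lift K s) F =
      qf K (four F 0) + ∑ c ∈ univ.erase (0 : AA t), four F c ⬝ᵥ ((tw K s c).mulVec (four F c)) := by
  have h1 : ∀ c, four F c ⬝ᵥ ((tw K s c).mulVec (four F c)) =
      ∑ x, ∑ y, adj K x y * (chi c (s s(x, y)) * four F c x * four F c y) := by
    intro c
    unfold dotProduct
    refine sum_congr rfl fun x _ => ?_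
    have : (tw K s c).mulVec (four F c) x = ∑ y, tw K s c x y * four F c y := rfl
    rw [this, mul_sum]
    refine sum_congr rfl fun y _ => ?_
    unfold tw
    ring
  have h0 : qf K (four F 0) = four F 0 ⬝ᵥ ((tw K s 0).mulVec (four F 0)) := by
    rw [h1]
    unfold qf
    refine sum_congr rfl fun x _ => sum_congr rfl fun y _ => ?_
    rw [chi_zero_left]; ring
  rw [h0, add_sum_erase univ (fun c => four F c ⬝ᵥ ((tw K s c).mulVec (four F c))) (mem_univ 0)]
  simp_rw [h1]
  rw [sum_comm, qf_lift, mul_sum]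
  refine sum_congr rfl fun x _ => ?_
  rw [sum_comm, mul_sum]
  refine sum_congr rfl fun y _ => ?_
  rw [← mul_sum, parseval]
  ring

end Pool.Agent.V7H96.GC
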