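import Pool.Agent.V7H96.GC.Count

set_option autoImplicit false
set_option linter.unusedSectionVars false

/-!
The choice of the voltages by averaging.
-/

namespace Pool.Agent.V7H96.GC

open Finset
open scoped Classical
open Pool.Agent.V7H96.SF

variable {W : Type} [Fintype W]

/-- the sum of the voltages along a sequence -/
def tot {t n : ℕ} (s : Sym2 W → AA t) (x : Fin (n + 1) → W) : AA t := ∑ i, s (lab x i)

lemma chi_sum {t : ℕ} (c : AA t) {ι : Type} (S : Finset ι) (a : ι → AA t) :
    chi c (∑ i ∈ S, a i) = ∏ i ∈ S, chi c (a i) := by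
  induction S using Finset.induction_on with
  | empty => simp [chi_zero]
  | insert i S hi ih => rw [sum_insert hi, prod_insert hi, chi_add, ih]

lemma chi_le_one {t : ℕ} (c a : AA t) : chi c a ≤ 1 := by
  have := chi_abs c a
  exact (le_abs_self _).trans this.le

lemma prod_chi_le_one {t : ℕ} {ι : Type} (S : Finset ι) (c : AA t) (a : ι → AA t) :
    ∏ i ∈ S, chi c (a i) ≤ 1 := by
  rw [← chi_sum]
  exact chi_le_one _ _

lemma sum_signsW {t n : ℕ} {c : AA t} (hc : c ≠ 0) (e : Fin n → Sym2 W)
    (he : ¬ EvenL e) : ∑ s : Sym2 W → AA t, ∏ i, chi c (s (e i)) = 0 := by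
  refine Eq.trans ?_ (sum_signs hc e he)
  exact Finset.sum_congr (Finset.ext fun x => by simp only [mem_univ]) fun _ _ => rfl

lemma count_zero {t n : ℕ} (x : Fin (n + 1) → W) (hx : ¬ EvenL (lab x)) :
    2 ^ t * ∑ s : Sym2 W → AA t, (if tot s x = 0 then (1 : ℝ) else 0) =
      Fintype.card (Sym2 W → AA t) := by
  have h1 : ∀ s : Sym2 W → AA t, 2 ^ t * (if tot s x = 0 then (1 : ℝ) else 0) =
      ∑ c : AA t, ∏ i, chi c (s (lab x i)) := by
    intro s
    have : ∑ c : AA t, ∏ i, chi c (s (lab x i)) = ∑ c : AA t, chi c (tot s x) := by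
      refine sum_congr rfl fun c _ => ?_
      unfold tot
      rw [chi_sum]
    rw [this, sum_chi]
    split_ifs <;> simp
  rw [mul_sum, sum_congr rfl fun s _ => h1 s, sum_comm]
  rw [sum_eq_single (0 : AA t)]
  · simp [chi_zero_left]
  · intro c _ hc
    exact sum_signsW hc (lab x) hx
  · intro h; exact absurd (mem_univ _) h

lemma trace_sum {t : ℕ} (K : SimpleGraph W) {c : AA t} (hc : c ≠ 0) (n : ℕ) :
    ∑ s : Sym2 W → AA t, ((tw K s c) ^ n).trace ≤
      Fintype.card (Sym2 W → AA t) * (evenW K n).card := by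
  have h1 : ∀ s : Sym2 W → AA t, ((tw K s c) ^ n).trace =
      ∑ x : Fin (n + 1) → W, if x 0 = x (Fin.last n) then
        (∏ i : Fin n, adj K (x i.castSucc) (x i.succ)) * ∏ i, chi c (s (lab x i)) else 0 := by
    intro s
    rw [trace_pow]
    refine sum_congr rfl fun x _ => ?_
    unfold tw lab
    rw [prod_mul_distrib]
  simp_rw [h1]
  rw [sum_comm]
  have h2 : ∀ x : Fin (n + 1) → W, (∑ s : Sym2 W → AA t, if x 0 = x (Fin.last n) then
        (∏ i : Fin n, adj K (x i.castSucc) (x i.succ)) * ∏ i, chi c (s (lab x i)) else 0) ≤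
      if x ∈ evenW K n then (Fintype.card (Sym2 W → AA t) : ℝ) else 0 := by
    intro x
    have h0 : (0 : ℝ) ≤ if x ∈ evenW K n then (Fintype.card (Sym2 W → AA t) : ℝ) else 0 := by
      split_ifs <;> positivity
    by_cases h3 : x 0 = x (Fin.last n)
    · simp only [if_pos h3]
      rw [← mul_sum]
      by_cases h4 : IsWk K x
      · by_cases h5 : EvenL (lab x)
        · have h6 : x ∈ evenW K n := mem_filter.2 ⟨mem_univ _, h4, h5⟩
          rw [if_pos h6]
          have h7 : ∏ i : Fin n, adj K (x i.castSucc) (x i.succ) = 1 := by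
            refine prod_eq_one fun i _ => ?_
            unfold adj
            rw [if_pos (h4 i)]
          rw [h7, one_mul]
          refine (sum_le_sum fun s _ => prod_chi_le_one univ c fun i => s (lab x i)).trans ?_
          simp
        · rw [sum_signsW hc (lab x) h5, mul_zero]
          exact h0
      · unfold IsWk at h4
        push Not at h4
        obtain ⟨i, hi⟩ := h4
        have h7 : ∏ i : Fin n, adj K (x i.castSucc) (x i.succ) = 0 := by
          refine prod_eq_zero (mem_univ i) ?_
          unfold adj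
          rw [if_neg hi]
        rw [h7, zero_mul]
        exact h0
    · simp only [if_neg h3]
      rw [sum_const_zero]
      exact h0
  refine (sum_le_sum fun x _ => h2 x).trans (le_of_eq ?_)
  rw [sum_ite_mem, univ_inter, sum_const, nsmul_eq_mul, mul_comm]

theorem choose_voltages [Nonempty W] {ι : Type} [Fintype ι] [Nonempty ι] (K : ι → SimpleGraph W)
    {D : ℕ} (reg : ∀ i v, (nb (K i) v).card ≤ D) (hD : 1 ≤ D) (L n t : ℕ) (hn : 1 ≤ n)
    (ht : 4 * ((L + 1) * Fintype.card W ^ (L + 1)) ≤ 2 ^ t) :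
    ∃ s : Sym2 W → AA t,
      (∀ l ≤ L, ∀ x : Fin (l + 1) → W, tot s x = 0 → EvenL (lab x)) ∧
      ∀ i, ∀ c : AA t, c ≠ 0 → ((tw (K i) s c) ^ (2 * n)).trace ≤
        4 * 2 ^ t * (Fintype.card ι * ((2 * n) ^ (2 * n) * (Fintype.card W * D ^ n))) := by
  set R : ℝ := (2 * n) ^ (2 * n) * (Fintype.card W * D ^ n) with hR
  have hW : 0 < Fintype.card W := Fintype.card_pos
  have hWr : (0 : ℝ) < Fintype.card W := by exact_mod_cast hW
  have hI : (0 : ℝ) < Fintype.card ι := by exact_mod_cast (Fintype.card_pos : 0 < Fintype.card ι)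
  have hDr : (0 : ℝ) < D := by exact_mod_cast hD
  have hnr : (0 : ℝ) < n := by exact_mod_cast hn
  have Rpos : 0 < R := by positivity
  set N : ℝ := (Fintype.card (Sym2 W → AA t) : ℝ) with hN
  have Npos : 0 < N := by
    rw [hN]; exact_mod_cast Fintype.card_pos
  have hev : ∀ i, ((evenW (K i) (2 * n)).card : ℝ) ≤ R := by
    intro i
    have := evenW_card (K i) (reg i) hD (2 * n)
    rw [Nat.mul_div_cancel_left n (by norm_num : 0 < 2)] at this
    rw [hR]
    exact_mod_cast this
  set g : (Sym2 W → AA t) → ℝ := fun s =>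
    (∑ l ∈ range (L + 1), ∑ x : Fin (l + 1) → W,
      if ¬ EvenL (lab x) then (if tot s x = 0 then (1 : ℝ) else 0) else 0) +
    ∑ i, ∑ c ∈ univ.erase (0 : AA t),
      ((tw (K i) s c) ^ (2 * n)).trace / (4 * 2 ^ t * (Fintype.card ι * R)) with hg
  have hsum : ∑ s, g s ≤ ∑ _s : Sym2 W → AA t, (1 / 2 : ℝ) := by
    rw [hg, sum_add_distrib, sum_const, card_univ, nsmul_eq_mul, ← hN]
    have h1 : (∑ s : Sym2 W → AA t, ∑ l ∈ range (L + 1), ∑ x : Fin (l + 1) → W,
        if ¬ EvenL (lab x) then (if tot s x = 0 then (1 : ℝ) else 0) else 0) ≤ N / 4 := by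
      rw [sum_comm]
      have h2 : ∀ l ∈ range (L + 1), (∑ s : Sym2 W → AA t, ∑ x : Fin (l + 1) → W,
          if ¬ EvenL (lab x) then (if tot s x = 0 then (1 : ℝ) else 0) else 0) ≤
          (Fintype.card W : ℝ) ^ (L + 1) * (N / 2 ^ t) := by
        intro l hl
        rw [sum_comm]
        have h3 : ∀ x : Fin (l + 1) → W, (∑ s : Sym2 W → AA t,
            if ¬ EvenL (lab x) then (if tot s x = 0 then (1 : ℝ) else 0) else 0) ≤ N / 2 ^ t := by
          intro x
          by_cases hx : EvenL (lab x)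
          · simp only [hx, not_true, if_false, sum_const_zero]
            positivity
          · simp only [hx, not_false_iff, if_true]
            have := count_zero (t := t) x hx
            rw [le_div_iff₀ (by positivity), mul_comm, this]
        refine (sum_le_card_nsmul _ _ _ fun x _ => h3 x).trans ?_
        rw [nsmul_eq_mul, card_univ, Fintype.card_fun, Fintype.card_fin]
        refine mul_le_mul_of_nonneg_right ?_ (by positivity)
        push_cast
        exact pow_le_pow_right₀ (by exact_mod_cast hW) (by have := mem_range.1 hl; omega)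
      refine (sum_le_card_nsmul _ _ _ h2).trans ?_
      rw [card_range, nsmul_eq_mul]
      have h5 : (4 : ℝ) * (((L + 1 : ℕ) : ℝ) * (Fintype.card W : ℝ) ^ (L + 1)) ≤ 2 ^ t := by
        exact_mod_cast ht
      have h6 : (0 : ℝ) < 2 ^ t := by positivity
      rw [← mul_assoc, ← mul_div_assoc, div_le_div_iff₀ h6 (by norm_num)]
      nlinarith
    have h2 : (∑ s : Sym2 W → AA t, ∑ i, ∑ c ∈ univ.erase (0 : AA t),
        ((tw (K i) s c) ^ (2 * n)).trace / (4 * 2 ^ t * (Fintype.card ι * R))) ≤ N / 4 := by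
      rw [sum_comm]
      have h7 : ∀ i, (∑ s : Sym2 W → AA t, ∑ c ∈ univ.erase (0 : AA t),
          ((tw (K i) s c) ^ (2 * n)).trace / (4 * 2 ^ t * (Fintype.card ι * R))) ≤
          N / (4 * Fintype.card ι) := by
        intro i
        rw [sum_comm]
        have h3 : ∀ c ∈ univ.erase (0 : AA t), (∑ s : Sym2 W → AA t,
            ((tw (K i) s c) ^ (2 * n)).trace / (4 * 2 ^ t * (Fintype.card ι * R))) ≤
            N / (4 * 2 ^ t * Fintype.card ι) := by
          intro c hc
          rw [← sum_div, div_le_div_iff₀ (by positivity) (by positivity)]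
          have := trace_sum (K i) (mem_erase.1 hc).1 (2 * n)
          rw [← hN] at this
          have h4 : N * (evenW (K i) (2 * n)).card ≤ N * R :=
            mul_le_mul_of_nonneg_left (hev i) Npos.le
          have h5 : (0 : ℝ) < 4 * 2 ^ t * Fintype.card ι := by positivity
          calc (∑ s : Sym2 W → AA t, ((tw (K i) s c) ^ (2 * n)).trace) * (4 * 2 ^ t * Fintype.card ι)
              ≤ (N * R) * (4 * 2 ^ t * Fintype.card ι) :=
                mul_le_mul_of_nonneg_right (this.trans h4) h5.le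
            _ = N * (4 * 2 ^ t * (Fintype.card ι * R)) := by ring
        refine (sum_le_card_nsmul _ _ _ h3).trans ?_
        rw [nsmul_eq_mul]
        have h4 : ((univ.erase (0 : AA t)).card : ℝ) ≤ 2 ^ t := by
          have := card_le_univ (univ.erase (0 : AA t))
          rw [AA_card] at this
          exact_mod_cast this
        calc ((univ.erase (0 : AA t)).card : ℝ) * (N / (4 * 2 ^ t * Fintype.card ι))
            ≤ 2 ^ t * (N / (4 * 2 ^ t * Fintype.card ι)) :=
              mul_le_mul_of_nonneg_right h4 (by positivity)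
          _ = N / (4 * Fintype.card ι) := by field_simp
      refine (sum_le_card_nsmul _ _ _ fun i _ => h7 i).trans (le_of_eq ?_)
      rw [nsmul_eq_mul, card_univ]
      field_simp
    linarith
  obtain ⟨s, _, hs⟩ := exists_le_of_sum_le (univ_nonempty) hsum
  have hnn1 : ∀ l ∈ range (L + 1), ∀ x : Fin (l + 1) → W,
      (0 : ℝ) ≤ if ¬ EvenL (lab x) then (if tot s x = 0 then (1 : ℝ) else 0) else 0 := by
    intro l _ x
    split_ifs <;> norm_num
  have hnn2 : ∀ i, ∀ c : AA t,
      0 ≤ ((tw (K i) s c) ^ (2 * n)).trace / (4 * 2 ^ t * (Fintype.card ι * R)) := fun i c =>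
    div_nonneg (trace_even_nonneg (tw_symm (K i) s c) n) (by positivity)
  have hnn3 : ∀ i, 0 ≤ ∑ c ∈ univ.erase (0 : AA t),
      ((tw (K i) s c) ^ (2 * n)).trace / (4 * 2 ^ t * (Fintype.card ι * R)) := fun i =>
    sum_nonneg fun c _ => hnn2 i c
  have hA : 0 ≤ ∑ l ∈ range (L + 1), ∑ x : Fin (l + 1) → W,
      if ¬ EvenL (lab x) then (if tot s x = 0 then (1 : ℝ) else 0) else 0 :=
    sum_nonneg fun l hl => sum_nonneg fun x _ => hnn1 l hl x
  have hB : 0 ≤ ∑ i, ∑ c ∈ univ.erase (0 : AA t),
      ((tw (K i) s c) ^ (2 * n)).trace / (4 * 2 ^ t * (Fintype.card ι * R)) :=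
    sum_nonneg fun i _ => hnn3 i
  refine ⟨s, fun l hl x hx => ?_, fun i c hc => ?_⟩
  · by_contra hcon
    have h1 : (1 : ℝ) ≤ ∑ x : Fin (l + 1) → W,
        if ¬ EvenL (lab x) then (if tot s x = 0 then (1 : ℝ) else 0) else 0 := by
      have := single_le_sum (f := fun x : Fin (l + 1) → W =>
        if ¬ EvenL (lab x) then (if tot s x = 0 then (1 : ℝ) else 0) else 0)
        (fun x _ => hnn1 l (mem_range.2 (by omega)) x) (mem_univ x)
      simp only [hcon, hx, not_false_iff, if_true] at this
      exact this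
    have h2 := single_le_sum (f := fun l : ℕ => ∑ x : Fin (l + 1) → W,
        if ¬ EvenL (lab x) then (if tot s x = 0 then (1 : ℝ) else 0) else 0)
        (fun l hl => sum_nonneg fun x _ => hnn1 l hl x) (mem_range.2 (by omega : l < L + 1))
    have h3 := h1.trans h2
    have h4 : (1 : ℝ) ≤ g s := by rw [hg]; linarith
    linarith
  · have h1 := single_le_sum (f := fun c : AA t =>
      ((tw (K i) s c) ^ (2 * n)).trace / (4 * 2 ^ t * (Fintype.card ι * R)))
      (fun c _ => hnn2 i c) (mem_erase.2 ⟨hc, mem_univ c⟩)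
    have h5 := single_le_sum (f := fun i => ∑ c ∈ univ.erase (0 : AA t),
      ((tw (K i) s c) ^ (2 * n)).trace / (4 * 2 ^ t * (Fintype.card ι * R)))
      (fun i _ => hnn3 i) (mem_univ i)
    have h2 : ((tw (K i) s c) ^ (2 * n)).trace / (4 * 2 ^ t * (Fintype.card ι * R)) ≤ 1 := by
      have h3 : ((tw (K i) s c) ^ (2 * n)).trace / (4 * 2 ^ t * (Fintype.card ι * R)) ≤ g s := by
        rw [hg]
        simp only at h1 h5 ⊢
        linarith
      linarith
    rwa [div_le_one (by positivity)] at h2

end Pool.Agent.V7H96.GC
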