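import Mathlib

set_option autoImplicit false
set_option linter.unusedSectionVars false

/-!
Powers of matrices as sums over walks, and the largest eigenvalue and traces.
-/

namespace Pool.Agent.V7H96.GC

open Finset Matrix

section
variable {Y : Type} [Fintype Y] [DecidableEq Y]

lemma pow_entry (M : Matrix Y Y ℝ) (n : ℕ) : ∀ (a b : Y),
    (M ^ n) a b = ∑ x : Fin (n + 1) → Y,
      if x 0 = a ∧ x (Fin.last n) = b then ∏ i : Fin n, M (x i.castSucc) (x i.succ) else 0 := by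
  induction n with
  | zero =>
    intro a b
    rw [pow_zero, Matrix.one_apply]
    rw [← (Equiv.funUnique (Fin 1) Y).symm.sum_comp]
    have : ∀ y : Y, (if ((Equiv.funUnique (Fin 1) Y).symm y) 0 = a ∧
        ((Equiv.funUnique (Fin 1) Y).symm y) (Fin.last 0) = b then
        ∏ i : Fin 0, M (((Equiv.funUnique (Fin 1) Y).symm y) i.castSucc)
          (((Equiv.funUnique (Fin 1) Y).symm y) i.succ) else 0) =
        if y = a then (if a = b then (1 : ℝ) else 0) else 0 := by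
      intro y
      by_cases h1 : y = a
      · subst h1
        by_cases h2 : y = b
        · subst h2; simp
        · simp [h2]
      · simp [h1]
    rw [sum_congr rfl fun y _ => this y]
    simp
  | succ n ih =>
    intro a b
    rw [pow_succ', Matrix.mul_apply]
    rw [← (Fin.consEquiv (fun _ : Fin (n + 2) => Y)).sum_comp, Fintype.sum_prod_type]
    have h1 : ∀ (y : Y) (x : Fin (n + 1) → Y),
        (if (Fin.consEquiv (fun _ : Fin (n + 2) => Y)) (y, x) 0 = a ∧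
          (Fin.consEquiv (fun _ : Fin (n + 2) => Y)) (y, x) (Fin.last (n + 1)) = b then
          ∏ i : Fin (n + 1), M ((Fin.consEquiv (fun _ : Fin (n + 2) => Y)) (y, x) i.castSucc)
            ((Fin.consEquiv (fun _ : Fin (n + 2) => Y)) (y, x) i.succ) else 0) =
        if y = a then (if x (Fin.last n) = b then
          M a (x 0) * ∏ i : Fin n, M (x i.castSucc) (x i.succ) else 0) else 0 := by
      intro y x
      have e1 : (Fin.consEquiv (fun _ : Fin (n + 2) => Y)) (y, x) = Fin.cons y x := rfl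
      rw [e1, Fin.prod_univ_succ]
      have e2 : (Fin.cons y x : Fin (n + 2) → Y) (Fin.last (n + 1)) = x (Fin.last n) := by
        rw [← Fin.succ_last, Fin.cons_succ]
      have e3 : (Fin.cons y x : Fin (n + 2) → Y) 0 = y := Fin.cons_zero _ _
      have e4 : (Fin.cons y x : Fin (n + 2) → Y) (Fin.castSucc 0) = y := by
        rw [Fin.castSucc_zero]; exact Fin.cons_zero _ _
      have e5 : (Fin.cons y x : Fin (n + 2) → Y) (Fin.succ 0) = x 0 := Fin.cons_succ _ _ _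
      have e6 : ∀ i : Fin n, M ((Fin.cons y x : Fin (n + 2) → Y) i.succ.castSucc)
          ((Fin.cons y x : Fin (n + 2) → Y) i.succ.succ) = M (x i.castSucc) (x i.succ) := by
        intro i
        rw [← Fin.succ_castSucc, Fin.cons_succ, Fin.cons_succ]
      rw [e2, e3, e4, e5]
      rw [prod_congr rfl fun i _ => e6 i]
      by_cases h1 : y = a
      · subst h1
        simp
      · simp [h1]
    simp_rw [h1]
    have h2 : ∀ y : Y, (∑ x : Fin (n + 1) → Y, if y = a then (if x (Fin.last n) = b then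
          M a (x 0) * ∏ i : Fin n, M (x i.castSucc) (x i.succ) else 0) else 0) =
        if y = a then (∑ x : Fin (n + 1) → Y, (if x (Fin.last n) = b then
          M a (x 0) * ∏ i : Fin n, M (x i.castSucc) (x i.succ) else 0)) else 0 := by
      intro y
      split_ifs <;> simp
    simp_rw [h2]
    rw [sum_ite_eq' univ a, if_pos (mem_univ _)]
    simp_rw [ih, mul_sum]
    rw [sum_comm]
    refine sum_congr rfl fun x _ => ?_
    rw [sum_eq_single (x 0)]
    · by_cases h3 : x (Fin.last n) = b <;> simp [h3]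
    · intro c _ hc
      rw [if_neg (fun h => hc h.1.symm), mul_zero]
    · intro h; exact absurd (mem_univ _) h

lemma trace_pow (M : Matrix Y Y ℝ) (n : ℕ) :
    (M ^ n).trace = ∑ x : Fin (n + 1) → Y,
      if x 0 = x (Fin.last n) then ∏ i : Fin n, M (x i.castSucc) (x i.succ) else 0 := by
  unfold Matrix.trace
  simp_rw [Matrix.diag_apply, pow_entry]
  rw [sum_comm]
  refine sum_congr rfl fun x _ => ?_
  rw [sum_eq_single (x 0)]
  · by_cases h : x 0 = x (Fin.last n)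
    · rw [if_pos ⟨rfl, h.symm⟩, if_pos h]
    · rw [if_neg (fun h' => h h'.2.symm), if_neg h]
  · intro c _ hc
    rw [if_neg (fun h => hc h.1.symm)]
  · intro h; exact absurd (mem_univ _) h

lemma symm_apply {M : Matrix Y Y ℝ} (hM : M.IsSymm) (a b : Y) : M a b = M b a := by
  have := congrFun (congrFun hM b) a
  rwa [Matrix.transpose_apply] at this

lemma trace_sq {M : Matrix Y Y ℝ} (hM : M.IsSymm) : (M * M).trace = ∑ a, ∑ b, M a b ^ 2 := by
  unfold Matrix.trace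
  refine sum_congr rfl fun a _ => ?_
  rw [Matrix.diag_apply, Matrix.mul_apply]
  refine sum_congr rfl fun b _ => ?_
  rw [symm_apply hM b a]; ring

lemma trace_even_nonneg {M : Matrix Y Y ℝ} (hM : M.IsSymm) (k : ℕ) : 0 ≤ (M ^ (2 * k)).trace := by
  rw [two_mul, pow_add, trace_sq (hM.pow k)]
  exact sum_nonneg fun _ _ => sum_nonneg fun _ _ => sq_nonneg _

lemma mulVec_sq_le {M : Matrix Y Y ℝ} (hM : M.IsSymm) (u : Y → ℝ) :
    (M *ᵥ u) ⬝ᵥ (M *ᵥ u) ≤ (M * M).trace * (u ⬝ᵥ u) := by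
  rw [trace_sq hM, sum_mul]
  unfold dotProduct
  refine sum_le_sum fun a _ => ?_
  have := sum_mul_sq_le_sq_mul_sq univ (fun b => M a b) u
  have h1 : (M *ᵥ u) a = ∑ b, M a b * u b := rfl
  rw [h1, ← sq]
  refine this.trans (le_of_eq ?_)
  congr 1
  exact sum_congr rfl fun _ _ => by ring

lemma form_sq_le {M : Matrix Y Y ℝ} (u : Y → ℝ) :
    (u ⬝ᵥ (M *ᵥ u)) ^ 2 ≤ (u ⬝ᵥ u) * ((M *ᵥ u) ⬝ᵥ (M *ᵥ u)) := by
  unfold dotProduct
  refine (sum_mul_sq_le_sq_mul_sq univ u (M *ᵥ u)).trans (le_of_eq ?_)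
  congr 1 <;> exact sum_congr rfl fun _ _ => by ring

lemma form_pow_le (j : ℕ) : ∀ {M : Matrix Y Y ℝ}, M.IsSymm → ∀ u : Y → ℝ,
    (u ⬝ᵥ (M *ᵥ u)) ^ (2 ^ (j + 1)) ≤ (M ^ (2 ^ (j + 1))).trace * (u ⬝ᵥ u) ^ (2 ^ (j + 1)) := by
  induction j with
  | zero =>
    intro M hM u
    simp only [zero_add, pow_one]
    have h0 : 0 ≤ u ⬝ᵥ u := sum_nonneg fun _ _ => mul_self_nonneg _
    calc (u ⬝ᵥ (M *ᵥ u)) ^ 2 ≤ (u ⬝ᵥ u) * ((M *ᵥ u) ⬝ᵥ (M *ᵥ u)) := form_sq_le u
      _ ≤ (u ⬝ᵥ u) * ((M * M).trace * (u ⬝ᵥ u)) := mul_le_mul_of_nonneg_left (mulVec_sq_le hM u) h0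
      _ = (M ^ 2).trace * (u ⬝ᵥ u) ^ 2 := by rw [sq M]; ring
  | succ j ih =>
    intro M hM u
    have h0 : 0 ≤ u ⬝ᵥ u := sum_nonneg fun _ _ => mul_self_nonneg _
    have h1 := ih (hM.pow 2) u
    have h2 : (M *ᵥ u) ⬝ᵥ (M *ᵥ u) = u ⬝ᵥ ((M ^ 2) *ᵥ u) := by
      rw [sq, ← Matrix.mulVec_mulVec, Matrix.dotProduct_mulVec u M (M *ᵥ u)]
      congr 1
      rw [← Matrix.mulVec_transpose, hM.eq]
    have h3 := form_sq_le (M := M) u
    rw [h2] at h3
    have e1 : 2 ^ (j + 1 + 1) = 2 * 2 ^ (j + 1) := by ring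
    calc (u ⬝ᵥ (M *ᵥ u)) ^ (2 ^ (j + 1 + 1)) = ((u ⬝ᵥ (M *ᵥ u)) ^ 2) ^ (2 ^ (j + 1)) := by
          rw [e1, pow_mul]
      _ ≤ ((u ⬝ᵥ u) * (u ⬝ᵥ ((M ^ 2) *ᵥ u))) ^ (2 ^ (j + 1)) :=
          pow_le_pow_left₀ (sq_nonneg _) h3 _
      _ = (u ⬝ᵥ u) ^ (2 ^ (j + 1)) * (u ⬝ᵥ ((M ^ 2) *ᵥ u)) ^ (2 ^ (j + 1)) := mul_pow _ _ _
      _ ≤ (u ⬝ᵥ u) ^ (2 ^ (j + 1)) *
          (((M ^ 2) ^ (2 ^ (j + 1))).trace * (u ⬝ᵥ u) ^ (2 ^ (j + 1))) :=
          mul_le_mul_of_nonneg_left h1 (pow_nonneg h0 _)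
      _ = (M ^ (2 ^ (j + 1 + 1))).trace * (u ⬝ᵥ u) ^ (2 ^ (j + 1 + 1)) := by
          rw [← pow_mul, e1, pow_mul (u ⬝ᵥ u) 2, sq (u ⬝ᵥ u), mul_pow]; ring

end

end Pool.Agent.V7H96.GC
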