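import Pool.Agent.V7H96.GC.Char
import Pool.Agent.V7H96.GC.Trace

set_option autoImplicit false
set_option linter.unusedSectionVars false

/-!
Walks which use every edge an even number of times.
-/

namespace Pool.Agent.V7H96.GC

open Finset
open scoped Classical
open Pool.Agent.V7H96.SF

variable {W : Type} [Fintype W]

/-- the edges of a sequence of vertices -/
def lab {n : ℕ} (x : Fin (n + 1) → W) (i : Fin n) : Sym2 W := s(x i.castSucc, x i.succ)

def IsWk (K : SimpleGraph W) {n : ℕ} (x : Fin (n + 1) → W) : Prop :=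
  ∀ i : Fin n, K.Adj (x i.castSucc) (x i.succ)

/-- all values are taken an even number of times -/
def EvenL {E : Type} {n : ℕ} (e : Fin n → E) : Prop :=
  ∀ e0, Even (univ.filter fun i => e i = e0).card

/-- walks with prescribed coincidences -/
noncomputable def coded (K : SimpleGraph W) (φ : ℕ → ℕ) (n : ℕ) : Finset (Fin (n + 1) → W) :=
  univ.filter fun x => IsWk K x ∧ ∀ i j : Fin n, φ i = j → (j : ℕ) < i → lab x i = lab x j

lemma init_mem {K : SimpleGraph W} {φ : ℕ → ℕ} {n : ℕ} {x : Fin (n + 2) → W}
    (hx : x ∈ coded K φ (n + 1)) : (fun i : Fin (n + 1) => x i.castSucc) ∈ coded K φ n := by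
  obtain ⟨h1, h2⟩ := (mem_filter.1 hx).2
  refine mem_filter.2 ⟨mem_univ _, fun i => ?_, fun i j hij hlt => ?_⟩
  · have := h1 i.castSucc
    rwa [Fin.succ_castSucc] at this
  · have := h2 i.castSucc j.castSucc (by simpa using hij) (by simpa using hlt)
    unfold lab at this ⊢
    rwa [Fin.succ_castSucc, Fin.succ_castSucc] at this

lemma coded_card (K : SimpleGraph W) {D : ℕ} (reg : ∀ v, (nb K v).card ≤ D) (φ : ℕ → ℕ) (n : ℕ) :
    (coded K φ n).card ≤ Fintype.card W * D ^ ((range n).filter fun i => ¬ φ i < i).card := by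
  induction n with
  | zero =>
    refine (card_le_univ _).trans ?_
    simp
  | succ n ih =>
    have hfib : ∀ y ∈ coded K φ n, ((coded K φ (n + 1)).filter
        fun x => (fun i : Fin (n + 1) => x i.castSucc) = y).card ≤
        if φ n < n then 1 else D := by
      intro y _
      split_ifs with h
      · rw [card_le_one]
        intro x hx z hz
        obtain ⟨hx1, hx2⟩ := mem_filter.1 hx
        obtain ⟨hz1, hz2⟩ := mem_filter.1 hz
        have hxz : ∀ i : Fin (n + 1), x i.castSucc = z i.castSucc := fun i =>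
          congrFun (hx2.trans hz2.symm) i
        have kx := (mem_filter.1 hx1).2.2 (Fin.last n) (Fin.castSucc ⟨φ n, h⟩) (by simp)
          (by simpa using h)
        have kz := (mem_filter.1 hz1).2.2 (Fin.last n) (Fin.castSucc ⟨φ n, h⟩) (by simp)
          (by simpa using h)
        unfold lab at kx kz
        rw [Fin.succ_castSucc, hxz, hxz, hxz, ← Fin.succ_castSucc, ← kz] at kx
        have h3 : x (Fin.last n).succ = z (Fin.last n).succ := by
          rw [Sym2.eq_iff] at kx
          rcases kx with kx | kx
          · exact kx.2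
          · rw [kx.2, ← kx.1]
        funext i
        refine Fin.lastCases ?_ (fun i => hxz i) i
        rw [← Fin.succ_last]; exact h3
      · refine le_trans ?_ (reg (y (Fin.last n)))
        refine card_le_card_of_injOn (fun x => x (Fin.last (n + 1))) ?_ ?_
        · intro x hx
          obtain ⟨hx1, hx2⟩ := mem_filter.1 hx
          have := (mem_filter.1 hx1).2.1 (Fin.last n)
          refine mem_coe.2 (mem_filter.2 ⟨mem_univ _, ?_⟩)
          rw [← hx2, ← Fin.succ_last]
          exact this
        · intro x hx z hz hxz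
          obtain ⟨hx1, hx2⟩ := mem_filter.1 hx
          obtain ⟨hz1, hz2⟩ := mem_filter.1 hz
          funext i
          exact Fin.lastCases hxz (fun i => congrFun (hx2.trans hz2.symm) i) i
    have h1 := card_le_mul_card_image_of_maps_to (s := coded K φ (n + 1)) (t := coded K φ n)
      (f := fun x => (fun i : Fin (n + 1) => x i.castSucc)) (fun x hx => init_mem hx) _ hfib
    refine h1.trans ((Nat.mul_le_mul_left _ ih).trans ?_)
    rw [range_add_one, filter_insert]
    by_cases h : φ n < n
    · rw [if_pos h, if_neg (by simpa using h), one_mul]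
    · rw [if_neg h, if_pos h, card_insert_of_notMem (by simp), pow_succ]
      apply le_of_eq; ring

/-- the first occurrence of the value at `i` -/
noncomputable def code {E : Type} {n : ℕ} (e : Fin n → E) (i : Fin n) : Fin n :=
  (univ.filter fun j => e j = e i).min' ⟨i, mem_filter.2 ⟨mem_univ _, rfl⟩⟩

lemma code_spec {E : Type} {n : ℕ} (e : Fin n → E) (i : Fin n) : e (code e i) = e i :=
  (mem_filter.1 (min'_mem (univ.filter fun j => e j = e i)
    ⟨i, mem_filter.2 ⟨mem_univ _, rfl⟩⟩)).2

lemma code_congr {E : Type} {n : ℕ} (e : Fin n → E) {i j : Fin n} (h : e i = e j) :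
    code e i = code e j := by
  unfold code
  simp only [h]

lemma code_le {E : Type} {n : ℕ} (e : Fin n → E) (i : Fin n) : code e i ≤ i :=
  min'_le (univ.filter fun j => e j = e i) i (mem_filter.2 ⟨mem_univ _, rfl⟩)

lemma code_fix {E : Type} {n : ℕ} {e : Fin n → E} (he : EvenL e) :
    2 * (univ.filter fun i => ¬ code e i < i).card ≤ n := by
  -- every class has at least two elements
  have h1 : (univ : Finset (Fin n)).card = ∑ e0 ∈ univ.image e, (univ.filter fun i => e i = e0).card :=
    card_eq_sum_card_image e univ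
  have h2 : ∀ e0 ∈ univ.image e, 2 ≤ (univ.filter fun i => e i = e0).card := by
    intro e0 h0
    obtain ⟨i, _, hi⟩ := mem_image.1 h0
    have h3 : 0 < (univ.filter fun i => e i = e0).card :=
      card_pos.2 ⟨i, mem_filter.2 ⟨mem_univ _, hi⟩⟩
    have h4 := he e0
    obtain ⟨r, hr⟩ := h4
    omega
  have h3 : (univ.filter fun i => ¬ code e i < i).card ≤ (univ.image e).card := by
    refine card_le_card_of_injOn e (fun i _ => mem_coe.2 (mem_image_of_mem _ (mem_univ _))) ?_
    intro i hi j hj hij
    have h4 := (mem_filter.1 (mem_coe.1 hi)).2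
    have h5 := (mem_filter.1 (mem_coe.1 hj)).2
    have h6 := code_le e i
    have h7 := code_le e j
    have h8 := code_congr e hij
    have h9 : code e i = i := le_antisymm h6 (not_lt.1 h4)
    have h10 : code e j = j := le_antisymm h7 (not_lt.1 h5)
    rw [← h9, ← h10, h8]
  have h4 : (univ.image e).card * 2 ≤ n := by
    have := Finset.card_nsmul_le_sum _ _ _ h2
    rw [← h1, card_univ, Fintype.card_fin, smul_eq_mul] at this
    exact this
  omega

/-- walks which use every edge an even number of times -/
noncomputable def evenW (K : SimpleGraph W) (n : ℕ) : Finset (Fin (n + 1) → W) :=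
  univ.filter fun x => IsWk K x ∧ EvenL (lab x)

lemma evenW_card (K : SimpleGraph W) {D : ℕ} (reg : ∀ v, (nb K v).card ≤ D) (hD : 1 ≤ D) (n : ℕ) :
    (evenW K n).card ≤ n ^ n * (Fintype.card W * D ^ (n / 2)) := by
  have h1 : evenW K n ⊆ ((univ : Finset (Fin n → Fin n)).filter fun φ =>
      2 * (univ.filter fun i => ¬ φ i < i).card ≤ n).biUnion
      fun φ => coded K (fun i => if h : i < n then (φ ⟨i, h⟩ : ℕ) else 0) n := by
    intro x hx
    obtain ⟨hx1, hx2⟩ := (mem_filter.1 hx).2
    refine mem_biUnion.2 ⟨code (lab x), mem_filter.2 ⟨mem_univ _, code_fix hx2⟩, ?_⟩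
    refine mem_filter.2 ⟨mem_univ _, hx1, fun i j hij _ => ?_⟩
    have hij' : (if h : (i : ℕ) < n then (code (lab x) ⟨i, h⟩ : ℕ) else 0) = j := hij
    rw [dif_pos i.2] at hij'
    have h3 : code (lab x) i = j := Fin.ext hij'
    rw [← h3]
    exact (code_spec (lab x) i).symm
  refine (card_le_card h1).trans (card_biUnion_le.trans ?_)
  have h2 : ∀ φ ∈ ((univ : Finset (Fin n → Fin n)).filter fun φ =>
      2 * (univ.filter fun i => ¬ φ i < i).card ≤ n),
      (coded K (fun i => if h : i < n then (φ ⟨i, h⟩ : ℕ) else 0) n).card ≤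
        Fintype.card W * D ^ (n / 2) := by
    intro φ hφ
    refine (coded_card K reg _ n).trans (Nat.mul_le_mul_left _ (Nat.pow_le_pow_right hD ?_))
    have h3 := (mem_filter.1 hφ).2
    have h4 : ((range n).filter fun i => ¬ (if h : i < n then (φ ⟨i, h⟩ : ℕ) else 0) < i).card ≤
        (univ.filter fun i => ¬ φ i < i).card := by
      refine card_le_card_of_surjOn (fun i : Fin n => (i : ℕ)) ?_
      intro i hi
      obtain ⟨a1, a2⟩ := mem_filter.1 (mem_coe.1 hi)
      have a3 := mem_range.1 a1
      rw [dif_pos a3] at a2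
      exact ⟨⟨i, a3⟩, mem_coe.2 (mem_filter.2 ⟨mem_univ _, a2⟩), rfl⟩
    omega
  refine (sum_le_card_nsmul _ _ _ h2).trans ?_
  rw [smul_eq_mul]
  refine Nat.mul_le_mul_right _ ?_
  refine (card_le_univ _).trans ?_
  simp

/-- flipping an edge -/
lemma sum_signs {E : Type} [Fintype E] {t n : ℕ} {c : AA t} (hc : c ≠ 0) (e : Fin n → E)
    (he : ¬ EvenL e) : ∑ s : E → AA t, ∏ i, chi c (s (e i)) = 0 := by
  unfold EvenL at he
  push Not at he
  obtain ⟨e0, h0⟩ := he
  rw [Nat.not_even_iff_odd] at h0
  obtain ⟨a0, ha0⟩ := exists_chi hc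
  rw [chi_comm] at ha0
  set δ : E → AA t := fun f => if f = e0 then a0 else 0 with hδ
  have h1 : ∑ s : E → AA t, ∏ i, chi c (s (e i) + δ (e i)) =
      ∑ s : E → AA t, ∏ i, chi c (s (e i)) :=
    Equiv.sum_comp (Equiv.addRight δ) (fun s : E → AA t => ∏ i, chi c (s (e i)))
  have h2 : ∀ s : E → AA t, ∏ i, chi c (s (e i) + δ (e i)) =
      - ∏ i, chi c (s (e i)) := by
    intro s
    have h3 : ∀ i, chi c (s (e i) + δ (e i)) =
        chi c (s (e i)) * (if e i = e0 then -1 else 1) := by
      intro i
      rw [chi_add]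
      by_cases h : e i = e0
      · rw [hδ, if_pos h]
        simp only [h, if_true]
        rw [ha0]
      · rw [hδ, if_neg h]
        simp only [h, if_false]
        rw [chi_zero]
    rw [prod_congr rfl fun i _ => h3 i, prod_mul_distrib, prod_ite, prod_const, prod_const_one,
      h0.neg_one_pow]
    ring
  rw [sum_congr rfl fun s _ => h2 s, sum_neg_distrib] at h1
  linarith

end Pool.Agent.V7H96.GC
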