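import Pool.Agent.V7H96.GC.Choose

set_option autoImplicit false
set_option linter.unusedSectionVars false

/-!
The girth of a lift in which only even closed walks stay closed.
-/

namespace Pool.Agent.V7H96.GC

open Finset
open scoped Classical
open Pool.Agent.V7H96.SF

/-- no cycles of length at most `g` -/
def NoShort {V : Type} (G : SimpleGraph V) (g : ℕ) : Prop :=
  ∀ (l : ℕ) (x : ℕ → V), 3 ≤ l → l ≤ g → (∀ i < l, G.Adj (x i) (x (i + 1))) → x l = x 0 →
    (∀ i < l, ∀ j < l, x i = x j → i = j) → False

variable {W : Type} [Fintype W]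

lemma even_image {E : Type} {n : ℕ} {e : Fin n → E} (he : EvenL e) :
    2 * (univ.image e).card ≤ n := by
  have h1 : (univ : Finset (Fin n)).card = ∑ e0 ∈ univ.image e, (univ.filter fun i => e i = e0).card :=
    card_eq_sum_card_image e univ
  have h2 : ∀ e0 ∈ univ.image e, 2 ≤ (univ.filter fun i => e i = e0).card := by
    intro e0 h0
    obtain ⟨i, _, hi⟩ := mem_image.1 h0
    have h3 : 0 < (univ.filter fun i => e i = e0).card :=
      card_pos.2 ⟨i, mem_filter.2 ⟨mem_univ _, hi⟩⟩
    have h4 := he e0
    obtain ⟨r, hr⟩ := h4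
    omega
  have := Finset.card_nsmul_le_sum _ _ _ h2
  rw [← h1, card_univ, Fintype.card_fin, smul_eq_mul] at this
  omega

lemma even_imageW {n : ℕ} {e : Fin n → Sym2 W} (he : EvenL e) :
    2 * (univ.image e).card ≤ n := by
  refine le_trans (le_of_eq ?_) (even_image he)
  refine congrArg (fun z => 2 * z) (congrArg Finset.card (Finset.ext fun x => ?_))
  simp only [mem_image]

lemma edge_inj {V : Type} {m : ℕ} {y : ℕ → V} (hm : 3 ≤ m) (h0 : y m = y 0)
    (hinj : ∀ i < m, ∀ j < m, y i = y j → i = j) {a b : ℕ} (hab : a < b) (hb : b < m)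
    (h : s(y a, y (a + 1)) = s(y b, y (b + 1))) : False := by
  rw [Sym2.eq_iff] at h
  rcases h with ⟨h1, _⟩ | ⟨h1, h2⟩
  · have := hinj a (by omega) b hb h1
    omega
  · rcases Nat.lt_or_ge (b + 1) m with h3 | h3
    · have := hinj a (by omega) (b + 1) h3 h1
      omega
    · have h4 : b + 1 = m := by omega
      rw [h4, h0] at h1
      have h5 := hinj a (by omega) 0 (by omega) h1
      have h6 := hinj (a + 1) (by omega) b hb h2
      omega

theorem lift_noShort {t g : ℕ} {K : SimpleGraph W} {s : Sym2 W → AA t} (hK : NoShort K g)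
    (hs : ∀ l ≤ 2 * g + 1, ∀ x : Fin (l + 1) → W, tot s x = 0 → EvenL (lab x)) :
    NoShort (lift K s) (2 * g + 1) := by
  intro l z hl3 hlg hadj hclose hinj
  set x : ℕ → W := fun i => (z i).1 with hx
  have hxa : ∀ i < l, K.Adj (x i) (x (i + 1)) := fun i hi => (lift_adj.1 (hadj i hi)).1
  have hxv : ∀ i < l, (z (i + 1)).2 = (z i).2 + s s(x i, x (i + 1)) :=
    fun i hi => (lift_adj.1 (hadj i hi)).2
  have hsum : ∀ j ≤ l, (z j).2 = (z 0).2 + ∑ i ∈ range j, s s(x i, x (i + 1)) := by
    intro j
    induction j with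
    | zero => intro _; simp
    | succ j ih =>
      intro hj
      rw [hxv j (by omega), ih (by omega), sum_range_succ, add_assoc]
  have htot : tot s (fun i : Fin (l + 1) => x i) = 0 := by
    have h1 := hsum l le_rfl
    rw [hclose] at h1
    have h2 : ∑ i ∈ range l, s s(x i, x (i + 1)) = 0 := by
      have := congrArg (fun a => (z 0).2 + a) h1
      simp only [← add_assoc, AA_self, zero_add] at this
      exact this.symm
    rw [sum_range] at h2
    exact h2
  have heven := hs l hlg _ htot
  have hxl : x l = x 0 := by rw [hx]; simp only [hclose]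
  have hnb : ∀ i, i + 2 ≤ l → x i ≠ x (i + 2) := by
    intro i hi h
    have h1 := hxv i (by omega)
    have h2 := hxv (i + 1) (by omega)
    have h3 : (z (i + 2)).2 = (z i).2 := by
      have e : i + 1 + 1 = i + 2 := rfl
      rw [e] at h2
      rw [h2, h1, ← h, Sym2.eq_swap (a := x (i + 1)), add_assoc, AA_self, add_zero]
    have h4 : z i = z (i + 2) := Prod.ext h h3.symm
    rcases Nat.lt_or_ge (i + 2) l with h5 | h5
    · have := hinj i (by omega) (i + 2) h5 h4
      omega
    · have h6 : i + 2 = l := by omega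
      rw [h6, hclose] at h4
      have := hinj i (by omega) 0 (by omega) h4
      omega
  have hP : ∃ m, 1 ≤ m ∧ ∃ i, i + m ≤ l ∧ x i = x (i + m) :=
    ⟨l, by omega, 0, by omega, by rw [zero_add]; exact hxl.symm⟩
  set m := Nat.find hP with hm
  obtain ⟨hm1, i, him, hxi⟩ := Nat.find_spec hP
  rw [← hm] at hm1 him hxi
  have hmin : ∀ m' < m, ¬ (1 ≤ m' ∧ ∃ i, i + m' ≤ l ∧ x i = x (i + m')) := fun m' h =>
    Nat.find_min hP h
  have hm3 : 3 ≤ m := by
    by_contra hcon
    have : m = 1 ∨ m = 2 := by omega
    rcases this with h | h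
    · rw [h] at hxi him
      exact (hxa i (by omega)).ne hxi
    · rw [h] at hxi him
      exact hnb i him hxi
  set y : ℕ → W := fun k => x (i + k) with hy
  have hya : ∀ k < m, K.Adj (y k) (y (k + 1)) := fun k hk => hxa (i + k) (by omega)
  have hy0 : y m = y 0 := hxi.symm
  have hlt : ∀ a < m, ∀ b < m, a < b → y a ≠ y b := by
    intro a ha b hb hab h
    refine hmin (b - a) (by omega) ⟨by omega, i + a, by omega, ?_⟩
    have : i + a + (b - a) = i + b := by omega
    rw [this]
    exact h
  have hyinj : ∀ a < m, ∀ b < m, y a = y b → a = b := by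
    intro a ha b hb h
    rcases lt_trichotomy a b with h1 | h1 | h1
    · exact absurd h (hlt a ha b hb h1)
    · exact h1
    · exact absurd h.symm (hlt b hb a ha h1)
  have hcard : m ≤ (univ.image (lab (fun i : Fin (l + 1) => x i))).card := by
    have h1 : (range m).card ≤ (univ.image (lab (fun i : Fin (l + 1) => x i))).card := by
      refine card_le_card_of_injOn (fun k => s(y k, y (k + 1))) ?_ ?_
      · intro k hk
        have hk' := mem_range.1 (mem_coe.1 hk)
        exact mem_coe.2 (mem_image.2 ⟨⟨i + k, by omega⟩, mem_univ _, rfl⟩)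
      · intro a ha b hb hab
        have ha' := mem_range.1 (mem_coe.1 ha)
        have hb' := mem_range.1 (mem_coe.1 hb)
        rcases lt_trichotomy a b with h1 | h1 | h1
        · exact absurd hab fun h => edge_inj hm3 hy0 hyinj h1 hb' h
        · exact h1
        · exact absurd hab.symm fun h => edge_inj hm3 hy0 hyinj h1 ha' h
    rwa [card_range] at h1
  have := even_imageW heven
  exact hK m y hm3 (by omega) hya hy0 hyinj

/-- walks in the sense of Mathlib -/
lemma noShort_cycle {V : Type} {G : SimpleGraph V} {g : ℕ} (hG : NoShort G g) {v : V}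
    (p : G.Walk v v) (hp : p.IsCycle) : g < p.length := by
  by_contra hcon
  push Not at hcon
  refine hG p.length p.getVert hp.three_le_length hcon (fun i hi => p.adj_getVert_succ hi) ?_ ?_
  · rw [SimpleGraph.Walk.getVert_length, SimpleGraph.Walk.getVert_zero]
  · intro i hi j hj hij
    exact hp.getVert_injOn' (by simp; omega) (by simp; omega) hij

end Pool.Agent.V7H96.GC
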