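import Pool.Agent.V7H96.SF.Core

set_option autoImplicit false
set_option linter.unusedSectionVars false

/-!
Rounding of fractional sets of vertices: a function with values in `[0, 1]` and sum `k` can be
replaced by a set of `k` vertices, with a small loss in the number of inner edges.
-/

namespace Pool.Agent.V7H96.GC

open Finset
open scoped Classical
open Pool.Agent.V7H96.SF

variable {V : Type} [Fintype V]

/-- the quadratic form of the adjacency matrix -/
noncomputable def qf (G : SimpleGraph V) (f : V → ℝ) : ℝ := ∑ u, ∑ v, adj G u v * f u * f v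

noncomputable def frac (f : V → ℝ) : Finset V := univ.filter fun v => 0 < f v ∧ f v < 1

def Feas (f : V → ℝ) : Prop := ∀ v, 0 ≤ f v ∧ f v ≤ 1

noncomputable def dv (u v w : V) : ℝ := (if w = u then 1 else 0) - (if w = v then 1 else 0)

noncomputable def mv (f : V → ℝ) (u v : V) (s : ℝ) : V → ℝ := fun w => f w + s * dv u v w

lemma mv_neg (f : V → ℝ) (u v : V) (s : ℝ) : mv f u v (-s) = mv f v u s := by
  funext w
  unfold mv dv
  ring

lemma dv_left {u v : V} (h : u ≠ v) : dv u v u = 1 := by
  unfold dv; simp [h]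

lemma dv_right {u v : V} (h : u ≠ v) : dv u v v = -1 := by
  unfold dv; simp [h.symm]

lemma dv_other {u v w : V} (h1 : w ≠ u) (h2 : w ≠ v) : dv u v w = 0 := by
  unfold dv; simp [h1, h2]

lemma sum_dv (u v : V) : ∑ w, dv u v w = 0 := by
  unfold dv
  rw [sum_sub_distrib]
  simp

lemma mv_props (f : V → ℝ) (hf : Feas f) {u v : V} (huv : u ≠ v) (hu : u ∈ frac f)
    (hv : v ∈ frac f) :
    Feas (mv f u v (min (1 - f u) (f v))) ∧
      ∑ w, mv f u v (min (1 - f u) (f v)) w = ∑ w, f w ∧
      frac (mv f u v (min (1 - f u) (f v))) ⊂ frac f := by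
  set s := min (1 - f u) (f v) with hs
  have hu' : 0 < f u ∧ f u < 1 := (mem_filter.1 hu).2
  have hv' : 0 < f v ∧ f v < 1 := (mem_filter.1 hv).2
  have s0 : 0 < s := lt_min (by linarith [hu'.2]) hv'.1
  have s1 : s ≤ 1 - f u := min_le_left _ _
  have s2 : s ≤ f v := min_le_right _ _
  have eu : mv f u v s u = f u + s := by unfold mv; rw [dv_left huv]; ring
  have ev : mv f u v s v = f v - s := by unfold mv; rw [dv_right huv]; ring
  have eo : ∀ w, w ≠ u → w ≠ v → mv f u v s w = f w := by
    intro w h1 h2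
    unfold mv; rw [dv_other h1 h2]; ring
  refine ⟨fun w => ?_, ?_, ?_⟩
  · by_cases h1 : w = u
    · subst h1; rw [eu]; constructor <;> linarith
    · by_cases h2 : w = v
      · subst h2; rw [ev]; constructor <;> linarith
      · rw [eo w h1 h2]; exact hf w
  · unfold mv
    rw [sum_add_distrib, ← mul_sum, sum_dv]; ring
  · rw [Finset.ssubset_iff_of_subset]
    · rcases min_choice (1 - f u) (f v) with h | h
      · refine ⟨u, hu, fun hc => ?_⟩
        have := (mem_filter.1 hc).2.2
        rw [eu] at this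
        rw [hs, h] at this
        linarith
      · refine ⟨v, hv, fun hc => ?_⟩
        have := (mem_filter.1 hc).2.1
        rw [ev] at this
        rw [hs, h] at this
        linarith
    · intro w hw
      have hw' := (mem_filter.1 hw).2
      by_cases h1 : w = u
      · subst h1; exact hu
      · by_cases h2 : w = v
        · subst h2; exact hv
        · rw [eo w h1 h2] at hw'
          exact mem_filter.2 ⟨mem_univ _, hw'⟩

/-- along the movable pairs the function is quadratic and convex -/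
def Movable (Q : (V → ℝ) → ℝ) (P : V → V → Prop) : Prop :=
  ∀ f u v, u ≠ v → P u v → ∃ L c, 0 ≤ c ∧ ∀ s, Q (mv f u v s) = Q f + s * L + s ^ 2 * c

lemma round_step {Q : (V → ℝ) → ℝ} {P : V → V → Prop} (hQ : Movable Q P) (f : V → ℝ)
    (hf : Feas f) {u v : V} (huv : u ≠ v) (hu : u ∈ frac f) (hv : v ∈ frac f) (hP : P u v) :
    ∃ f' : V → ℝ, Feas f' ∧ ∑ w, f' w = ∑ w, f w ∧ frac f' ⊂ frac f ∧ Q f ≤ Q f' := by
  obtain ⟨L, c, hc, hL⟩ := hQ f u v huv hP
  have hu' : 0 < f u ∧ f u < 1 := (mem_filter.1 hu).2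
  have hv' : 0 < f v ∧ f v < 1 := (mem_filter.1 hv).2
  rcases le_total 0 L with h | h
  · obtain ⟨h1, h2, h3⟩ := mv_props f hf huv hu hv
    refine ⟨_, h1, h2, h3, ?_⟩
    rw [hL]
    have s0 : 0 < min (1 - f u) (f v) := lt_min (by linarith [hu'.2]) hv'.1
    have := mul_nonneg s0.le h
    have := mul_nonneg (sq_nonneg (min (1 - f u) (f v))) hc
    linarith
  · obtain ⟨h1, h2, h3⟩ := mv_props f hf huv.symm hv hu
    refine ⟨_, h1, h2, h3, ?_⟩
    rw [← mv_neg, hL]
    have s0 : 0 < min (1 - f v) (f u) := lt_min (by linarith [hv'.2]) hu'.1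
    have := mul_nonneg s0.le (neg_nonneg.2 h)
    have := mul_nonneg (sq_nonneg (min (1 - f v) (f u))) hc
    nlinarith

lemma round_all {Q : (V → ℝ) → ℝ} {P : V → V → Prop} (hQ : Movable Q P) :
    ∀ (n : ℕ) (f : V → ℝ), (frac f).card ≤ n → Feas f →
      ∃ f' : V → ℝ, Feas f' ∧ ∑ w, f' w = ∑ w, f w ∧ frac f' ⊆ frac f ∧ Q f ≤ Q f' ∧
        ∀ u ∈ frac f', ∀ v ∈ frac f', u ≠ v → ¬ P u v := by
  intro n
  induction n with
  | zero =>
    intro f hn hf
    refine ⟨f, hf, rfl, Subset.refl _, le_rfl, fun u hu => ?_⟩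
    have : frac f = ∅ := by
      rw [← card_eq_zero]; omega
    rw [this] at hu
    simp at hu
  | succ n ih =>
    intro f hn hf
    by_cases h : ∃ u ∈ frac f, ∃ v ∈ frac f, u ≠ v ∧ P u v
    · obtain ⟨u, hu, v, hv, huv, hP⟩ := h
      obtain ⟨f1, a1, a2, a3, a4⟩ := round_step hQ f hf huv hu hv hP
      have := card_lt_card a3
      obtain ⟨f2, b1, b2, b3, b4, b5⟩ := ih f1 (by omega) a1
      exact ⟨f2, b1, b2.trans a2, b3.trans a3.1, a4.trans b4, b5⟩
    · push Not at h
      exact ⟨f, hf, rfl, Subset.refl _, le_rfl, h⟩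

/-- the bilinear form -/
noncomputable def bf (G : SimpleGraph V) (f g : V → ℝ) : ℝ := ∑ u, ∑ v, adj G u v * f u * g v

lemma qf_add (G : SimpleGraph V) (f g : V → ℝ) (s : ℝ) :
    qf G (fun w => f w + s * g w) = qf G f + s * (bf G f g + bf G g f) + s ^ 2 * qf G g := by
  unfold qf bf
  rw [← sum_add_distrib, mul_sum, mul_sum, ← sum_add_distrib, ← sum_add_distrib]
  refine sum_congr rfl fun u _ => ?_
  rw [← sum_add_distrib, mul_sum, mul_sum, ← sum_add_distrib, ← sum_add_distrib]
  refine sum_congr rfl fun v _ => ?_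
  ring

lemma sum_dv_mul (u v : V) (h : V → ℝ) : ∑ w, h w * dv u v w = h u - h v := by
  unfold dv
  simp only [mul_sub, sum_sub_distrib]
  simp

lemma qf_dv (G : SimpleGraph V) (u v : V) : qf G (dv u v) = -2 * adj G u v := by
  unfold qf
  have h1 : ∀ a, ∑ b, adj G a b * dv u v a * dv u v b = dv u v a * (adj G a u - adj G a v) := by
    intro a
    rw [sum_dv_mul u v (fun b => adj G a b * dv u v a)]
    ring
  simp_rw [h1]
  have h2 : ∀ a, dv u v a * (adj G a u - adj G a v) = (adj G a u - adj G a v) * dv u v a :=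
    fun a => mul_comm _ _
  simp_rw [h2]
  rw [sum_dv_mul u v (fun a => adj G a u - adj G a v), adj_self, adj_self, adj_symm G v u]
  ring

lemma movable_qf (G : SimpleGraph V) : Movable (qf G) (fun u v => ¬ G.Adj u v) := by
  intro f u v _ hP
  refine ⟨bf G f (dv u v) + bf G (dv u v) f, qf G (dv u v), ?_, fun s => qf_add G f (dv u v) s⟩
  rw [qf_dv]
  unfold adj
  simp [hP]

lemma movable_sq (G : SimpleGraph V) :
    Movable (fun f => qf G f + ∑ w, f w ^ 2) (fun _ _ => True) := by
  intro f u v huv _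
  refine ⟨bf G f (dv u v) + bf G (dv u v) f + 2 * ∑ w, f w * dv u v w,
    qf G (dv u v) + ∑ w, dv u v w ^ 2, ?_, fun s => ?_⟩
  · rw [qf_dv]
    have h1 : ∑ w, dv u v w ^ 2 = 2 := by
      have : ∀ w, dv u v w ^ 2 = dv u v w * dv u v w := fun w => by ring
      simp_rw [this]
      rw [sum_dv_mul u v (fun w => dv u v w), dv_left huv, dv_right huv]
      norm_num
    rw [h1]
    linarith [adj_le_one G u v]
  · show qf G (fun w => f w + s * dv u v w) + ∑ w, (f w + s * dv u v w) ^ 2 = _
    rw [qf_add]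
    have h2 : ∑ w, (f w + s * dv u v w) ^ 2 =
        ∑ w, f w ^ 2 + s * (2 * ∑ w, f w * dv u v w) + s ^ 2 * ∑ w, dv u v w ^ 2 := by
      rw [mul_sum, mul_sum, mul_sum, ← sum_add_distrib, ← sum_add_distrib]
      refine sum_congr rfl fun w _ => ?_
      ring
    rw [h2]
    ring

lemma qf_ind (G : SimpleGraph V) (S : Finset V) :
    qf G (fun w => if w ∈ S then 1 else 0) = ee G S S := by
  unfold qf ee
  rw [← sum_filter_add_sum_filter_not univ (fun u => u ∈ S)]
  have h0 : (∑ u ∈ univ.filter (fun u => ¬ u ∈ S), ∑ v, adj G u v * (if u ∈ S then (1 : ℝ) else 0) *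
      (if v ∈ S then 1 else 0)) = 0 := by
    refine sum_eq_zero fun u hu => sum_eq_zero fun v _ => ?_
    rw [if_neg (mem_filter.1 hu).2]; ring
  rw [h0, add_zero, filter_mem_eq_inter, univ_inter]
  refine sum_congr rfl fun u hu => ?_
  rw [← sum_filter_add_sum_filter_not univ (fun v => v ∈ S)]
  have h1 : (∑ v ∈ univ.filter (fun v => ¬ v ∈ S), adj G u v * (if u ∈ S then (1 : ℝ) else 0) *
      (if v ∈ S then 1 else 0)) = 0 := by
    refine sum_eq_zero fun v hv => ?_
    rw [if_neg (mem_filter.1 hv).2]; ring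
  rw [h1, add_zero, filter_mem_eq_inter, univ_inter]
  refine sum_congr rfl fun v hv => ?_
  simp only [if_pos hu, if_pos hv, mul_one]

/-- **Rounding.** -/
theorem rounding (G : SimpleGraph V) {d k : ℕ} (reg : ∀ v, (nb G v).card = d) (f : V → ℝ)
    (hf : Feas f) (hk : ∑ w, f w = k) :
    ∃ S : Finset V, S.card = k ∧ qf G f ≤ ee G S S + ((d : ℝ) + 1) / 4 := by
  obtain ⟨f1, a1, a2, a3, a4, a5⟩ := round_all (movable_qf G) _ f le_rfl hf
  obtain ⟨f2, b1, b2, b3, b4, b5⟩ := round_all (movable_sq G) _ f1 le_rfl a1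
  -- the function `f2` is an indicator
  have hcard : (frac f2).card ≤ 1 := by
    rw [card_le_one]
    intro a ha b hb
    by_contra hab
    exact b5 a ha b hb hab trivial
  have hsum : ∑ w, f2 w = k := by rw [b2, a2, hk]
  have hint : ∀ w, w ∉ frac f2 → f2 w = if f2 w = 1 then 1 else 0 := by
    intro w hw
    have h1 := b1 w
    unfold frac at hw
    simp only [mem_filter, mem_univ, true_and, not_and, not_lt] at hw
    split_ifs with h2
    · exact h2
    · rcases h1.1.lt_or_eq with h3 | h3
      · exact absurd (le_antisymm h1.2 (hw h3)) h2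
      · exact h3.symm
  set S := univ.filter fun w => f2 w = 1 with hS
  have hempty : frac f2 = ∅ := by
    by_contra hne
    obtain ⟨a, ha⟩ := Finset.nonempty_iff_ne_empty.2 hne
    have ha' : 0 < f2 a ∧ f2 a < 1 := (mem_filter.1 ha).2
    have h1 : ∑ w, f2 w = f2 a + ∑ w ∈ univ.erase a, f2 w := (add_sum_erase _ _ (mem_univ a)).symm
    have h2 : ∑ w ∈ univ.erase a, f2 w = ((univ.erase a).filter fun w => f2 w = 1).card := by
      rw [card_filter]
      push_cast
      refine sum_congr rfl fun w hw => ?_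
      refine hint w fun hw' => ?_
      exact (mem_erase.1 hw).1 (card_le_one.1 hcard w hw' a ha)
    rw [hsum, h2] at h1
    have h3 : f2 a = ((k : ℤ) - (((univ.erase a).filter fun w => f2 w = 1).card : ℤ) : ℤ) := by
      push_cast
      linarith
    have h4 : (0 : ℤ) < (k : ℤ) - (((univ.erase a).filter fun w => f2 w = 1).card : ℤ) := by
      have := ha'.1
      rw [h3] at this
      exact_mod_cast this
    have h5 : (k : ℤ) - (((univ.erase a).filter fun w => f2 w = 1).card : ℤ) < 1 := by
      have := ha'.2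
      rw [h3] at this
      exact_mod_cast this
    omega
  have hind : f2 = fun w => if w ∈ S then 1 else 0 := by
    funext w
    rw [hint w (by rw [hempty]; simp)]
    simp [hS]
  have hcardS : S.card = k := by
    have h1 : ∑ w, f2 w = S.card := by
      rw [hind]
      simp
    rw [hsum] at h1
    exact_mod_cast h1.symm
  refine ⟨S, hcardS, ?_⟩
  -- sum of squares
  have h2sq : ∑ w, f2 w ^ 2 = k := by
    rw [← hcardS, hind]
    simp
  have hq2 : qf G f2 = ee G S S := by
    rw [hind]; exact qf_ind G S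
  have h3 : qf G f1 + ∑ w, f1 w ^ 2 ≤ ee G S S + k := by
    have := b4
    rw [h2sq, hq2] at this
    exact this
  have h4 : (k : ℝ) - ∑ w, f1 w ^ 2 = ∑ w ∈ frac f1, f1 w * (1 - f1 w) := by
    have : (k : ℝ) = ∑ w, f1 w := by rw [a2, hk]
    rw [this, ← sum_sub_distrib, ← sum_filter_add_sum_filter_not univ (fun w => w ∈ frac f1)]
    have z : (∑ w ∈ univ.filter (fun w => ¬ w ∈ frac f1), (f1 w - f1 w ^ 2)) = 0 := by
      refine sum_eq_zero fun w hw => ?_
      have hw' := (mem_filter.1 hw).2
      unfold frac at hw'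
      simp only [mem_filter, mem_univ, true_and, not_and, not_lt] at hw'
      rcases (a1 w).1.lt_or_eq with h | h
      · have : f1 w = 1 := le_antisymm (a1 w).2 (hw' h)
        rw [this]; norm_num
      · rw [← h]; norm_num
    rw [z, add_zero, filter_mem_eq_inter, univ_inter]
    refine sum_congr rfl fun w _ => ?_
    ring
  have h5 : ∑ w ∈ frac f1, f1 w * (1 - f1 w) ≤ (frac f1).card * (1 / 4 : ℝ) := by
    rw [← nsmul_eq_mul]
    refine sum_le_card_nsmul _ _ _ fun w _ => ?_
    nlinarith [sq_nonneg (f1 w - 1 / 2)]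
  have h6 : (frac f1).card ≤ d + 1 := by
    rcases (frac f1).eq_empty_or_nonempty with h | ⟨a, ha⟩
    · rw [h]; simp
    · have : (frac f1).erase a ⊆ nb G a := by
        intro w hw
        have hw' := mem_erase.1 hw
        have := a5 a ha w hw'.2 hw'.1.symm
        rw [not_not] at this
        exact mem_filter.2 ⟨mem_univ _, this⟩
      have h7 := card_le_card this
      rw [reg, card_erase_of_mem ha] at h7
      omega
  have h8 : ((frac f1).card : ℝ) ≤ (d : ℝ) + 1 := by exact_mod_cast h6
  linarith [a4]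

end Pool.Agent.V7H96.GC
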