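import Pool.Agent.V7H96.GC.Univ

set_option autoImplicit false
set_option linter.unusedSectionVars false

/-!
The choice of the parameters.
-/

namespace Pool.Agent.V7H96.GC

open Finset
open scoped Classical
open Pool.Agent.V7H96.SF

theorem universal (g : ℕ) (ε : ℝ) (hε : 0 < ε) :
    ∃ C : ℕ, ∀ (V : Type) [Fintype V] [Nonempty V],
      ∃ (W : Type) (_ : Fintype W) (H : SimpleGraph W) (π : W → V) (q m : ℕ),
        1 ≤ m ∧ UCov H π q m (ε / 2 * m) ∧ NoShort H g ∧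
        Fintype.card W ≤ C * Fintype.card V ^ C := by
  obtain ⟨a, b, ha, hb, htower⟩ := tower g
  set j := 2 * b + 3 with hj
  set X : ℝ := 4 * a * ((2 * 2 ^ j) * (2 / ε)) ^ (2 * 2 ^ j) with hX
  set c := ⌈X⌉₊ + 1 with hc
  refine ⟨a * (1 + c) ^ b + 2 * b, ?_⟩
  intro V _ _
  set n := Fintype.card V with hn
  have hn1 : 1 ≤ n := Fintype.card_pos
  set m := n + c with hm
  have hm1 : 1 ≤ m := by omega
  have hmr : (1 : ℝ) ≤ m := by exact_mod_cast hm1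
  have : Nonempty (Fin m) := ⟨⟨0, by omega⟩⟩
  have hl : (0 : ℝ) ≤ ε / 2 * m := by positivity
  have hcard0 : Fintype.card (V × Fin m) = n * m := by rw [Fintype.card_prod, Fintype.card_fin]
  have hXm : X ≤ m := by
    have h1 : X ≤ ⌈X⌉₊ := Nat.le_ceil X
    have h2 : ((⌈X⌉₊ : ℕ) : ℝ) ≤ m := by
      exact_mod_cast (by omega : ⌈X⌉₊ ≤ m)
    linarith
  have hnm : (n : ℝ) ≤ m := by exact_mod_cast (by omega : n ≤ m)
  have hbig : 4 * (a * (Fintype.card (V × Fin m) : ℝ) ^ b) * ((n : ℝ) ^ 2 *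
      ((2 * 2 ^ j) ^ (2 * 2 ^ j) * (m : ℝ) ^ (2 ^ j))) ≤ (ε / 2 * m) ^ (2 * 2 ^ j) := by
    rw [hcard0]
    push_cast
    have e1 : (ε / 2 * m) ^ (2 * 2 ^ j) = (ε / 2) ^ (2 * 2 ^ j) * (m ^ (2 ^ j) * m ^ (2 ^ j)) := by
      rw [mul_pow, two_mul, pow_add (m : ℝ)]
    rw [e1]
    have e2 : (4 : ℝ) * (a * (n * m) ^ b) * ((n : ℝ) ^ 2 *
        ((2 * 2 ^ j) ^ (2 * 2 ^ j) * (m : ℝ) ^ (2 ^ j))) =
        (ε / 2) ^ (2 * 2 ^ j) * ((X * ((n * m) ^ b * (n : ℝ) ^ 2)) * m ^ (2 ^ j)) := by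
      have e3 : (ε / 2) ^ (2 * 2 ^ j) * (2 / ε) ^ (2 * 2 ^ j) = 1 := by
        rw [← mul_pow]
        have : ε / 2 * (2 / ε) = 1 := by field_simp
        rw [this, one_pow]
      have e4 : X = 4 * a * ((2 * 2 ^ j) ^ (2 * 2 ^ j) * (2 / ε) ^ (2 * 2 ^ j)) := by
        rw [hX, mul_pow]
      rw [e4]
      generalize (ε / 2) ^ (2 * 2 ^ j) = P at e3 ⊢
      generalize (2 / ε) ^ (2 * 2 ^ j) = Q at e3 ⊢
      generalize ((2 : ℝ) * 2 ^ j) ^ (2 * 2 ^ j) = T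
      generalize ((n : ℝ) * m) ^ b = Y
      generalize (m : ℝ) ^ (2 ^ j) = Z
      have e5 : P * (4 * a * (T * Q) * (Y * (n : ℝ) ^ 2) * Z) =
          (P * Q) * (4 * (a * Y) * ((n : ℝ) ^ 2 * (T * Z))) := by ring
      rw [e5, e3, one_mul]
    rw [e2]
    refine mul_le_mul_of_nonneg_left (mul_le_mul_of_nonneg_right ?_ (by positivity)) (by positivity)
    have h1 : ((n : ℝ) * m) ^ b * (n : ℝ) ^ 2 ≤ (m : ℝ) ^ (2 * b + 2) := by
      calc ((n : ℝ) * m) ^ b * (n : ℝ) ^ 2 ≤ ((m : ℝ) * m) ^ b * (m : ℝ) ^ 2 := by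
            refine mul_le_mul ?_ ?_ (by positivity) (by positivity)
            · exact pow_le_pow_left₀ (by positivity) (mul_le_mul_of_nonneg_right hnm (by positivity)) _
            · exact pow_le_pow_left₀ (by positivity) hnm _
        _ = (m : ℝ) ^ (2 * b + 2) := by
            rw [← sq, ← pow_mul, ← pow_add]
    calc X * (((n : ℝ) * m) ^ b * (n : ℝ) ^ 2) ≤ m * (m : ℝ) ^ (2 * b + 2) :=
          mul_le_mul hXm h1 (by positivity) (by positivity)
      _ = (m : ℝ) ^ (2 * b + 3) := by ring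
      _ ≤ (m : ℝ) ^ (2 ^ j) := by
          refine pow_le_pow_right₀ hmr ?_
          rw [← hj]
          exact Nat.lt_two_pow_self.le
  obtain ⟨W, i1, _, H, π, q, hcov, hno, hcard⟩ :=
    htower V (V × Fin m) (blow (⊤ : SimpleGraph V) m) Prod.fst m m j (ε / 2 * m) hl hm1
      (ucov_blow hm1 hl) hbig
  refine ⟨W, i1, H, π, q, m, hm1, hcov, ?_, ?_⟩
  · intro l x h3 hlg
    exact hno l x h3 (hlg.trans (le_gr g))
  · rw [hcard0] at hcard
    have h1 : n * m ≤ (1 + c) * n ^ 2 := by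
      rw [hm]
      have h3 : n * c ≤ n * n * c := Nat.mul_le_mul_right c (Nat.le_mul_self n)
      calc n * (n + c) = n * n + n * c := by ring
        _ ≤ n * n + n * n * c := Nat.add_le_add_left h3 _
        _ = (1 + c) * n ^ 2 := by ring
    have h2 : a * (n * m) ^ b ≤ a * (1 + c) ^ b * n ^ (2 * b) := by
      calc a * (n * m) ^ b ≤ a * ((1 + c) * n ^ 2) ^ b :=
            Nat.mul_le_mul_left _ (Nat.pow_le_pow_left h1 _)
        _ = a * (1 + c) ^ b * n ^ (2 * b) := by rw [mul_pow, ← pow_mul]; ring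
    refine hcard.trans (h2.trans (Nat.mul_le_mul (Nat.le_add_right _ _) ?_))
    exact Nat.pow_le_pow_right hn1 (Nat.le_add_left _ _)

end Pool.Agent.V7H96.GC
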