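import Pool.Agent.V7H96.GC.Girth

set_option autoImplicit false
set_option linter.unusedSectionVars false

/-!
Towers of lifts of a blow-up.
-/

namespace Pool.Agent.V7H96.GC

open Finset
open scoped Classical
open Pool.Agent.V7H96.SF

/-- the edge `v u` -/
def eg {V : Type} (v u : V) : SimpleGraph V where
  Adj a b := ((a = v ∧ b = u) ∨ (a = u ∧ b = v)) ∧ a ≠ b
  symm := ⟨fun a b h => ⟨by rcases h.1 with h1 | h1
                            · exact Or.inr ⟨h1.2, h1.1⟩
                            · exact Or.inl ⟨h1.2, h1.1⟩, h.2.symm⟩⟩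
  loopless := ⟨fun _ h => h.2 rfl⟩

/-- the part of `K` over `G` -/
def restr {V W : Type} (K : SimpleGraph W) (π : W → V) (G : SimpleGraph V) : SimpleGraph W where
  Adj x y := K.Adj x y ∧ G.Adj (π x) (π y)
  symm := ⟨fun _ _ h => ⟨h.1.symm, h.2.symm⟩⟩
  loopless := ⟨fun x h => K.loopless.irrefl x h.1⟩

/-- the blow-up -/
def blow {V : Type} (G : SimpleGraph V) (m : ℕ) : SimpleGraph (V × Fin m) where
  Adj p q := G.Adj p.1 q.1
  symm := ⟨fun _ _ h => G.symm.symm _ _ h⟩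
  loopless := ⟨fun p h => G.loopless.irrefl p.1 h⟩

lemma adj_restr {V W : Type} (K : SimpleGraph W) (π : W → V) (G : SimpleGraph V) (x y : W) :
    adj (restr K π G) x y = adj K x y * adj G (π x) (π y) := by
  unfold adj
  by_cases h1 : K.Adj x y
  · by_cases h2 : G.Adj (π x) (π y)
    · have : (restr K π G).Adj x y := ⟨h1, h2⟩
      simp [h1, h2, this]
    · have : ¬ (restr K π G).Adj x y := fun h => h2 h.2
      simp [h2, this]
  · have : ¬ (restr K π G).Adj x y := fun h => h1 h.1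
    simp [h1, this]

/-- `K` covers the blow-up of the complete graph, and it is quasirandom between any two fibres -/
structure UCov {V W : Type} [Fintype V] [Fintype W] (K : SimpleGraph W)
    (π : W → V) (q m : ℕ) (lam : ℝ) : Prop where
  qpos : 1 ≤ q
  fib : ∀ v, (univ.filter fun y => π y = v).card = q
  own : ∀ x y, K.Adj x y → π x ≠ π y
  deg : ∀ x v, π x ≠ v → (univ.filter fun y => K.Adj x y ∧ π y = v).card = m
  no : ∀ v u, ∀ F : W → ℝ, qf (restr K π (eg v u)) F ≤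
    (m / q : ℝ) * qf (eg v u) (fun v => ∑ y ∈ univ.filter (fun y => π y = v), F y) +
      lam * ∑ x, F x ^ 2

section
variable {V : Type} [Fintype V]

lemma fibre_sum {m : ℕ} (F : V × Fin m → ℝ) (v : V) :
    ∑ y ∈ univ.filter (fun y : V × Fin m => y.1 = v), F y = ∑ i, F (v, i) := by
  rw [sum_filter, Fintype.sum_prod_type, sum_eq_single v]
  · simp
  · intro u _ hu
    simp [hu]
  · intro h; exact absurd (mem_univ _) h

lemma qf_blow (G : SimpleGraph V) (m : ℕ) (F : V × Fin m → ℝ) :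
    qf (blow G m) F = qf G (fun v => ∑ i, F (v, i)) := by
  unfold qf
  rw [Fintype.sum_prod_type]
  refine sum_congr rfl fun v _ => ?_
  simp_rw [Fintype.sum_prod_type]
  rw [sum_comm]
  refine sum_congr rfl fun u _ => ?_
  rw [mul_assoc, sum_mul_sum, mul_sum]
  refine sum_congr rfl fun i _ => ?_
  rw [mul_sum]
  refine sum_congr rfl fun j _ => ?_
  have : adj (blow G m) (v, i) (u, j) = adj G v u := rfl
  rw [this]; ring

lemma restr_blow (G : SimpleGraph V) (m : ℕ) :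
    restr (blow (⊤ : SimpleGraph V) m) Prod.fst G = blow G m := by
  ext p q
  constructor
  · intro h; exact h.2
  · intro h
    have h' : G.Adj p.1 q.1 := h
    exact ⟨h'.ne, h'⟩

lemma ucov_blow {m : ℕ} (hm : 1 ≤ m) {lam : ℝ} (hl : 0 ≤ lam) :
    UCov (blow (⊤ : SimpleGraph V) m) Prod.fst m m lam where
  qpos := hm
  fib := by
    intro v
    have : (univ.filter fun y : V × Fin m => y.1 = v) = {v} ×ˢ (univ : Finset (Fin m)) := by
      ext p
      simp only [mem_filter, mem_univ, true_and, mem_product, mem_singleton, and_true]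
    rw [this, card_product, card_singleton, card_univ, Fintype.card_fin, one_mul]
  own := fun x y h => h
  deg := by
    intro x v hx
    have : (univ.filter fun y : V × Fin m => (blow (⊤ : SimpleGraph V) m).Adj x y ∧ y.1 = v) =
        {v} ×ˢ (univ : Finset (Fin m)) := by
      ext p
      simp only [mem_filter, mem_univ, true_and, mem_product, mem_singleton, and_true]
      constructor
      · exact fun h => h.2
      · intro h
        refine ⟨?_, h⟩
        show x.1 ≠ p.1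
        rw [h]; exact hx
    rw [this, card_product, card_singleton, card_univ, Fintype.card_fin, one_mul]
  no := by
    intro v u F
    rw [restr_blow, qf_blow]
    simp_rw [fibre_sum]
    have hm' : (m : ℝ) ≠ 0 := by
      have : (1 : ℝ) ≤ m := by exact_mod_cast hm
      linarith
    rw [div_self hm', one_mul]
    have : 0 ≤ lam * ∑ x, F x ^ 2 := mul_nonneg hl (sum_nonneg fun _ _ => sq_nonneg _)
    linarith

variable {W : Type} [Fintype W]

lemma fibre_sum_lift {t : ℕ} (π : W → V) (F : W × AA t → ℝ) (v : V) :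
    ∑ y ∈ univ.filter (fun y : W × AA t => π y.1 = v), F y =
      ∑ y ∈ univ.filter (fun y : W => π y = v), ∑ a, F (y, a) := by
  rw [sum_filter, sum_filter, Fintype.sum_prod_type]
  refine sum_congr rfl fun y _ => ?_
  split_ifs <;> simp

lemma restr_lift {t : ℕ} (K : SimpleGraph W) (π : W → V) (s : Sym2 W → AA t)
    (G : SimpleGraph V) :
    restr (lift K s) (fun p => π p.1) G = lift (restr K π G) s := by
  ext p q
  constructor
  · rintro ⟨h1, h2⟩
    exact ⟨⟨h1.1, h2⟩, h1.2⟩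
  · rintro ⟨h1, h2⟩
    exact ⟨⟨h1.1, h2⟩, h1.2⟩

lemma no_lift {G : SimpleGraph V} {K : SimpleGraph W} {π : W → V} {q m : ℕ} (hq : 1 ≤ q) {lam : ℝ}
    (h : ∀ F : W → ℝ, qf K F ≤
      (m / q : ℝ) * qf G (fun v => ∑ y ∈ univ.filter (fun y => π y = v), F y) +
        lam * ∑ x, F x ^ 2) {t : ℕ} (s : Sym2 W → AA t)
    (hs : ∀ c : AA t, c ≠ 0 → ∀ u : W → ℝ, u ⬝ᵥ ((tw K s c).mulVec u) ≤ lam * ∑ x, u x ^ 2)
    (F : W × AA t → ℝ) :
    qf (lift K s) F ≤ (m / ((q * 2 ^ t : ℕ) : ℝ) : ℝ) *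
      qf G (fun v => ∑ y ∈ univ.filter (fun y : W × AA t => π y.1 = v), F y) +
        lam * ∑ x, F x ^ 2 := by
  have hq : (0 : ℝ) < q := by exact_mod_cast hq
  have h2 : (0 : ℝ) < 2 ^ t := by positivity
  have h1 := lift_decomp K s F
  have h3 := h (four F 0)
  have h4 : ∑ c ∈ univ.erase (0 : AA t), four F c ⬝ᵥ ((tw K s c).mulVec (four F c)) ≤
      ∑ c ∈ univ.erase (0 : AA t), lam * ∑ x, four F c x ^ 2 :=
    sum_le_sum fun c hc => hs c (mem_erase.1 hc).1 _
  have h5 : lam * ∑ x, four F 0 x ^ 2 + ∑ c ∈ univ.erase (0 : AA t),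
      lam * ∑ x, four F c x ^ 2 = 2 ^ t * (lam * ∑ p, F p ^ 2) := by
    rw [add_sum_erase univ (fun c => lam * ∑ x, four F c x ^ 2) (mem_univ 0), ← mul_sum,
      sum_comm]
    simp_rw [parseval_sq]
    rw [← mul_sum, Fintype.sum_prod_type (f := fun p : W × AA t => F p ^ 2)]
    ring
  have h6 : (fun v => ∑ y ∈ univ.filter (fun y => π y = v), four F 0 y) =
      fun v => ∑ y ∈ univ.filter (fun y : W × AA t => π y.1 = v), F y := by
    funext v
    rw [fibre_sum_lift]
    exact sum_congr rfl fun y _ => four_zero F y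
  rw [h6] at h3
  set Z := qf G (fun v => ∑ y ∈ univ.filter (fun y : W × AA t => π y.1 = v), F y) with hZ
  have h7 : 2 ^ t * qf (lift K s) F ≤ (m / q : ℝ) * Z + 2 ^ t * (lam * ∑ p, F p ^ 2) := by
    rw [h1]; linarith
  have h8 : (m / ((q * 2 ^ t : ℕ) : ℝ) : ℝ) * Z = ((m / q : ℝ) * Z) / 2 ^ t := by
    push_cast
    field_simp
  rw [h8]
  have h9 : qf (lift K s) F ≤ ((m / q : ℝ) * Z + 2 ^ t * (lam * ∑ p, F p ^ 2)) / 2 ^ t := by
    rw [le_div_iff₀ h2]; linarith
  refine h9.trans (le_of_eq ?_)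
  field_simp

lemma ucov_lift {K : SimpleGraph W} {π : W → V} {q m : ℕ} {lam : ℝ}
    (h : UCov K π q m lam) {t : ℕ} (s : Sym2 W → AA t)
    (hs : ∀ v u, ∀ c : AA t, c ≠ 0 → ∀ f : W → ℝ,
      f ⬝ᵥ ((tw (restr K π (eg v u)) s c).mulVec f) ≤ lam * ∑ x, f x ^ 2) :
    UCov (lift K s) (fun p => π p.1) (q * 2 ^ t) m lam where
  qpos := Nat.mul_pos h.qpos (by positivity)
  fib := by
    intro v
    have : (univ.filter fun y : W × AA t => π y.1 = v) =
        (univ.filter fun y : W => π y = v) ×ˢ (univ : Finset (AA t)) := by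
      ext p
      simp only [mem_filter, mem_univ, true_and, mem_product, and_true]
    rw [this, card_product, h.fib, card_univ, AA_card]
  own := fun x y hxy => h.own _ _ hxy.1
  deg := by
    intro p v hp
    rw [← h.deg p.1 v hp]
    refine card_bij (fun q _ => q.1) ?_ ?_ ?_
    · intro q hq
      have := (mem_filter.1 hq).2
      exact mem_filter.2 ⟨mem_univ _, (lift_adj.1 this.1).1, this.2⟩
    · intro q hq r hr hqr
      have h1 := (lift_adj.1 (mem_filter.1 hq).2.1).2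
      have h2 := (lift_adj.1 (mem_filter.1 hr).2.1).2
      refine Prod.ext hqr ?_
      rw [h1, h2, hqr]
    · intro y hy
      obtain ⟨h1, h2⟩ := (mem_filter.1 hy).2
      exact ⟨(y, p.2 + s s(p.1, y)), mem_filter.2 ⟨mem_univ _, lift_adj.2 ⟨h1, rfl⟩, h2⟩, rfl⟩
  no := by
    intro v u F
    rw [restr_lift]
    exact no_lift h.qpos (h.no v u) s (hs v u) F

lemma deg_eg {K : SimpleGraph W} {π : W → V} {q m : ℕ} {lam : ℝ} (h : UCov K π q m lam) (v u : V)
    (x : W) : (nb (restr K π (eg v u)) x).card ≤ m := by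
  by_cases h0 : nb (restr K π (eg v u)) x = ∅
  · rw [h0]; simp
  · obtain ⟨y, hy⟩ := Finset.nonempty_iff_ne_empty.2 h0
    have hy' := (mem_filter.1 hy).2
    have hw : π x ≠ π y := hy'.2.2
    rw [← h.deg x (π y) hw]
    refine card_le_card fun z hz => ?_
    have hz' := (mem_filter.1 hz).2
    refine mem_filter.2 ⟨mem_univ _, hz'.1, ?_⟩
    obtain ⟨h1, h2⟩ := hy'.2
    obtain ⟨h3, h4⟩ := hz'.2
    rcases h1 with h1 | h1 <;> rcases h3 with h3 | h3
    · rw [h1.2, h3.2]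
    · exact absurd (h3.1.symm.trans h1.1) (fun hh => h2 (by rw [h1.1, h1.2, hh]))
    · exact absurd (h3.1.symm.trans h1.1) (fun hh => h2 (by rw [h1.1, h1.2, hh]))
    · rw [h1.2, h3.2]

end

/-- the growth of the girth -/
def gr : ℕ → ℕ
  | 0 => 2
  | r + 1 => 2 * gr r + 1

lemma le_gr (r : ℕ) : r ≤ gr r := by
  induction r with
  | zero => simp
  | succ r ih => simp only [gr]; omega

lemma exists_two_pow {X : ℕ} (hX : 1 ≤ X) : ∃ t, X ≤ 2 ^ t ∧ 2 ^ t ≤ 2 * X := by
  rcases Nat.lt_or_ge 1 X with h | h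
  · refine ⟨Nat.clog 2 X, Nat.le_pow_clog (by norm_num) X, ?_⟩
    have h1 := Nat.pow_pred_clog_lt_self (b := 2) (by norm_num) h
    have h2 : 0 < Nat.clog 2 X := Nat.clog_pos (by norm_num) h
    have h3 : 2 ^ Nat.clog 2 X = 2 * 2 ^ (Nat.clog 2 X).pred := by
      rw [← pow_succ']
      congr 1
      exact (Nat.succ_pred_eq_of_pos h2).symm
    omega
  · exact ⟨0, by omega, by omega⟩

lemma form_le {W : Type} [Fintype W] {t : ℕ} {K : SimpleGraph W} {s : Sym2 W → AA t} {c : AA t}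
    {j : ℕ} {lam : ℝ} (hl : 0 ≤ lam)
    (h : ((tw K s c) ^ (2 * 2 ^ j)).trace ≤ lam ^ (2 * 2 ^ j)) (u : W → ℝ) :
    u ⬝ᵥ ((tw K s c).mulVec u) ≤ lam * ∑ x, u x ^ 2 := by
  have e1 : u ⬝ᵥ u = ∑ x, u x ^ 2 := by
    unfold dotProduct
    exact sum_congr rfl fun _ _ => (sq _).symm
  have h0 : 0 ≤ u ⬝ᵥ u := by
    rw [e1]; exact sum_nonneg fun _ _ => sq_nonneg _
  have h1 := form_pow_le j (tw_symm K s c) u
  rw [← e1]
  have e2 : 2 ^ (j + 1) = 2 * 2 ^ j := by ring
  rw [e2] at h1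
  have h2 : (u ⬝ᵥ ((tw K s c).mulVec u)) ^ (2 * 2 ^ j) ≤ (lam * (u ⬝ᵥ u)) ^ (2 * 2 ^ j) := by
    rw [mul_pow]
    exact h1.trans (mul_le_mul_of_nonneg_right h (pow_nonneg h0 _))
  have h3 : |u ⬝ᵥ ((tw K s c).mulVec u)| ^ (2 * 2 ^ j) ≤ (lam * (u ⬝ᵥ u)) ^ (2 * 2 ^ j) := by
    rw [Even.pow_abs (even_two_mul _)]
    exact h2
  exact (le_abs_self _).trans (le_of_pow_le_pow_left₀ (by positivity) (mul_nonneg hl h0) h3)

theorem tower (r : ℕ) : ∃ a b : ℕ, 1 ≤ a ∧ 1 ≤ b ∧
    ∀ (V : Type) [Fintype V] [Nonempty V] (W : Type) [Fintype W] [Nonempty W]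
      (K : SimpleGraph W) (π : W → V) (q m j : ℕ) (lam : ℝ), 0 ≤ lam → 1 ≤ m →
      UCov K π q m lam →
      4 * (a * (Fintype.card W : ℝ) ^ b) * ((Fintype.card V : ℝ) ^ 2 *
        ((2 * 2 ^ j) ^ (2 * 2 ^ j) * (m : ℝ) ^ (2 ^ j))) ≤ lam ^ (2 * 2 ^ j) →
      ∃ (W' : Type) (_ : Fintype W') (_ : Nonempty W') (K' : SimpleGraph W') (π' : W' → V)
        (q' : ℕ), UCov K' π' q' m lam ∧ NoShort K' (gr r) ∧
          Fintype.card W' ≤ a * Fintype.card W ^ b := by
  induction r with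
  | zero =>
    refine ⟨1, 1, le_rfl, le_rfl, ?_⟩
    intro V _ _ W _ _ K π q m j lam hl hD hcov hbig
    refine ⟨W, inferInstance, inferInstance, K, π, q, hcov, ?_, by simp⟩
    intro l x h3 h2
    simp only [gr] at h2
    omega
  | succ r ih =>
    obtain ⟨a, b, ha, hb, ih⟩ := ih
    set L := 2 * gr r + 1 with hL
    refine ⟨8 * (L + 1) * a ^ (L + 2), b * (L + 2), ?_, ?_, ?_⟩
    · have : 0 < a ^ (L + 2) := by positivity
      nlinarith
    · nlinarith
    intro V _ _ W _ _ K π q m j lam hl hD hcov hbig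
    have hWn : 1 ≤ Fintype.card W := Fintype.card_pos
    have hW : (1 : ℝ) ≤ Fintype.card W := by exact_mod_cast hWn
    have hsmall : a * Fintype.card W ^ b ≤
        8 * (L + 1) * a ^ (L + 2) * Fintype.card W ^ (b * (L + 2)) := by
      have h1 : a ≤ 8 * (L + 1) * a ^ (L + 2) := by
        calc a = a ^ 1 := (pow_one a).symm
          _ ≤ a ^ (L + 2) := Nat.pow_le_pow_right ha (by omega)
          _ ≤ 8 * (L + 1) * a ^ (L + 2) := Nat.le_mul_of_pos_left _ (by omega)
      have h2 : Fintype.card W ^ b ≤ Fintype.card W ^ (b * (L + 2)) :=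
        Nat.pow_le_pow_right hWn (Nat.le_mul_of_pos_right _ (by omega))
      exact Nat.mul_le_mul h1 h2
    have hpos : (0 : ℝ) ≤ (Fintype.card V : ℝ) ^ 2 *
        ((2 * 2 ^ j) ^ (2 * 2 ^ j) * (m : ℝ) ^ (2 ^ j)) := by positivity
    have hbig1 : 4 * (a * (Fintype.card W : ℝ) ^ b) * ((Fintype.card V : ℝ) ^ 2 *
        ((2 * 2 ^ j) ^ (2 * 2 ^ j) * (m : ℝ) ^ (2 ^ j))) ≤ lam ^ (2 * 2 ^ j) := by
      refine le_trans (mul_le_mul_of_nonneg_right ?_ hpos) hbig
      refine mul_le_mul_of_nonneg_left ?_ (by norm_num)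
      exact_mod_cast hsmall
    obtain ⟨W1, _, _, K1, π1, q1, hcov1, hno1, hcard1⟩ :=
      ih V W K π q m j lam hl hD hcov hbig1
    have hW1 : 1 ≤ Fintype.card W1 := Fintype.card_pos
    have hX : 1 ≤ 4 * ((L + 1) * Fintype.card W1 ^ (L + 1)) := by
      have : 0 < (L + 1) * Fintype.card W1 ^ (L + 1) := by positivity
      omega
    obtain ⟨t, ht1, ht2⟩ := exists_two_pow hX
    obtain ⟨s, hs1, hs2⟩ := choose_voltages (fun e : V × V => restr K1 π1 (eg e.1 e.2))
      (fun e x => deg_eg hcov1 e.1 e.2 x) hD L (2 ^ j) t Nat.one_le_two_pow ht1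
    have hcard2 : Fintype.card (W1 × AA t) ≤
        8 * (L + 1) * a ^ (L + 2) * Fintype.card W ^ (b * (L + 2)) := by
      rw [Fintype.card_prod, AA_card]
      calc Fintype.card W1 * 2 ^ t
          ≤ Fintype.card W1 * (2 * (4 * ((L + 1) * Fintype.card W1 ^ (L + 1)))) :=
            Nat.mul_le_mul_left _ ht2
        _ = 8 * (L + 1) * Fintype.card W1 ^ (L + 2) := by ring
        _ ≤ 8 * (L + 1) * (a * Fintype.card W ^ b) ^ (L + 2) :=
            Nat.mul_le_mul_left _ (Nat.pow_le_pow_left hcard1 _)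
        _ = 8 * (L + 1) * a ^ (L + 2) * Fintype.card W ^ (b * (L + 2)) := by
            rw [mul_pow, ← pow_mul]; ring
    refine ⟨W1 × AA t, inferInstance, inferInstance, lift K1 s, fun p => π1 p.1, q1 * 2 ^ t,
      ucov_lift hcov1 s fun v u c hc f => form_le (j := j) hl ?_ f, lift_noShort hno1 hs1, hcard2⟩
    refine (hs2 (v, u) c hc).trans (le_trans ?_ hbig)
    have h9 : ((Fintype.card W1 : ℝ) * 2 ^ t) ≤
        ((8 * (L + 1) * a ^ (L + 2) : ℕ) : ℝ) * (Fintype.card W : ℝ) ^ (b * (L + 2)) := by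
      rw [Fintype.card_prod, AA_card] at hcard2
      exact_mod_cast hcard2
    have h10 : (4 : ℝ) * 2 ^ t * (Fintype.card (V × V) * ((2 * ((2 ^ j : ℕ) : ℝ)) ^ (2 * 2 ^ j) *
        (Fintype.card W1 * (m : ℝ) ^ (2 ^ j)))) =
        4 * ((Fintype.card W1 : ℝ) * 2 ^ t) * ((Fintype.card V : ℝ) ^ 2 *
          ((2 * 2 ^ j) ^ (2 * 2 ^ j) * (m : ℝ) ^ (2 ^ j))) := by
      rw [Fintype.card_prod]
      push_cast; ring
    rw [h10]
    exact mul_le_mul_of_nonneg_right (mul_le_mul_of_nonneg_left h9 (by norm_num)) hpos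

end Pool.Agent.V7H96.GC
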