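import Pool.Agent.V7H96.GC.Tower

set_option autoImplicit false
set_option linter.unusedSectionVars false

/-!
The part of a universal cover over a regular graph.
-/

namespace Pool.Agent.V7H96.GC

open Finset
open scoped Classical
open Pool.Agent.V7H96.SF

variable {V W : Type} [Fintype V] [Fintype W]

lemma sum_fib (π : W → V) (h : W → ℝ) :
    ∑ x, h x = ∑ v, ∑ x ∈ univ.filter (fun x => π x = v), h x :=
  (sum_fiberwise univ π h).symm

lemma two_adj (G : SimpleGraph V) (a b : V) :
    2 * adj G a b = ∑ v, ∑ u, adj G v u * adj (eg v u) a b := by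
  have h1 : ∀ v u, adj G v u * adj (eg v u) a b =
      (if v = a then (if u = b then adj G v u else 0) else 0) +
        (if v = b then (if u = a then adj G v u else 0) else 0) := by
    intro v u
    by_cases hab : a = b
    · subst hab
      have : adj (eg v u) a a = 0 := adj_self _ _
      rw [this, mul_zero]
      by_cases h1 : v = a
      · by_cases h2 : u = a
        · subst h1; subst h2; simp [adj_self]
        · simp [h2]
      · simp [h1]
    · by_cases h1 : v = a ∧ u = b
      · obtain ⟨rfl, rfl⟩ := h1
        have : adj (eg v u) v u = 1 := by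
          unfold adj
          rw [if_pos]
          exact ⟨Or.inl ⟨rfl, rfl⟩, hab⟩
        rw [this]
        simp [hab]
      · by_cases h2 : v = b ∧ u = a
        · obtain ⟨rfl, rfl⟩ := h2
          have : adj (eg v u) u v = 1 := by
            unfold adj
            rw [if_pos]
            exact ⟨Or.inr ⟨rfl, rfl⟩, hab⟩
          rw [this]
          have hvu : ¬ v = u := fun h => hab h.symm
          simp [hvu]
        · have : adj (eg v u) a b = 0 := by
            unfold adj
            rw [if_neg]
            rintro ⟨h3 | h3, _⟩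
            · exact h1 ⟨h3.1.symm, h3.2.symm⟩
            · exact h2 ⟨h3.2.symm, h3.1.symm⟩
          rw [this, mul_zero]
          have e1 : (if v = a then (if u = b then adj G v u else 0) else 0) = 0 := by
            split_ifs with h3 h4
            · exact absurd ⟨h3, h4⟩ h1
            · rfl
            · rfl
          have e2 : (if v = b then (if u = a then adj G v u else 0) else 0) = 0 := by
            split_ifs with h3 h4
            · exact absurd ⟨h3, h4⟩ h2
            · rfl
            · rfl
          rw [e1, e2, add_zero]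
  simp_rw [h1, sum_add_distrib]
  have h2 : ∀ a b : V, ∑ v, ∑ u, (if v = a then (if u = b then adj G v u else 0) else 0) =
      adj G a b := by
    intro a b
    rw [sum_eq_single a]
    · simp
    · intro v _ hv
      simp [hv]
    · intro h; exact absurd (mem_univ _) h
  rw [h2, h2, adj_symm G b a]; ring

lemma two_sum (G : SimpleGraph V) (π : W → V) (w : W → W → ℝ) :
    2 * ∑ x, ∑ y, w x y * adj G (π x) (π y) =
      ∑ v, ∑ u, adj G v u * ∑ x, ∑ y, w x y * adj (eg v u) (π x) (π y) := by
  have h1 : 2 * ∑ x, ∑ y, w x y * adj G (π x) (π y) =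
      ∑ x, ∑ y, ∑ v, ∑ u, w x y * (adj G v u * adj (eg v u) (π x) (π y)) := by
    rw [mul_sum]
    refine sum_congr rfl fun x _ => ?_
    rw [mul_sum]
    refine sum_congr rfl fun y _ => ?_
    have := two_adj G (π x) (π y)
    calc 2 * (w x y * adj G (π x) (π y)) = w x y * (2 * adj G (π x) (π y)) := by ring
      _ = _ := by rw [this, mul_sum]; exact sum_congr rfl fun v _ => mul_sum _ _ _
  have h2 : ∀ x, ∑ y, ∑ v, ∑ u, w x y * (adj G v u * adj (eg v u) (π x) (π y)) =
      ∑ v, ∑ u, ∑ y, w x y * (adj G v u * adj (eg v u) (π x) (π y)) := by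
    intro x
    rw [sum_comm]
    exact sum_congr rfl fun v _ => sum_comm
  rw [h1]
  simp_rw [h2]
  rw [sum_comm]
  refine sum_congr rfl fun v _ => ?_
  rw [sum_comm]
  refine sum_congr rfl fun u _ => ?_
  rw [mul_sum]
  refine sum_congr rfl fun x _ => ?_
  rw [mul_sum]
  refine sum_congr rfl fun y _ => ?_
  ring

lemma qf_restr (K : SimpleGraph W) (π : W → V) (G : SimpleGraph V) (F : W → ℝ) :
    qf (restr K π G) F = ∑ x, ∑ y, (adj K x y * F x * F y) * adj G (π x) (π y) := by
  unfold qf
  refine sum_congr rfl fun x _ => sum_congr rfl fun y _ => ?_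
  rw [adj_restr]; ring

lemma two_qf_restr (K : SimpleGraph W) (π : W → V) (G : SimpleGraph V) (F : W → ℝ) :
    2 * qf (restr K π G) F = ∑ v, ∑ u, adj G v u * qf (restr K π (eg v u)) F := by
  rw [qf_restr, two_sum]
  simp_rw [qf_restr]

lemma two_qf (G : SimpleGraph V) (f : V → ℝ) :
    2 * qf G f = ∑ v, ∑ u, adj G v u * qf (eg v u) f := by
  have h1 : ∀ G' : SimpleGraph V, qf G' f = ∑ x, ∑ y, (f x * f y) * adj G' (id x) (id y) := by
    intro G'
    unfold qf
    refine sum_congr rfl fun x _ => sum_congr rfl fun y _ => ?_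
    simp only [id]; ring
  rw [h1, two_sum]
  simp_rw [h1]

lemma eg_zero {v u a b : V} (h : ¬ (a = v ∨ a = u)) : adj (eg v u) a b = 0 := by
  unfold adj
  rw [if_neg]
  rintro ⟨h1 | h1, _⟩
  · exact h (Or.inl h1.1)
  · exact h (Or.inr h1.1)

section
variable {K : SimpleGraph W} {π : W → V} {q m : ℕ} {lam : ℝ}

lemma UCov.pair (h : UCov K π q m lam) (hl : 0 ≤ lam) (v u : V) (F : W → ℝ) :
    qf (restr K π (eg v u)) F ≤
      (m / q : ℝ) * qf (eg v u) (fun v => ∑ y ∈ univ.filter (fun y => π y = v), F y) +
        lam * (∑ y ∈ univ.filter (fun y => π y = v), F y ^ 2 +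
          ∑ y ∈ univ.filter (fun y => π y = u), F y ^ 2) := by
  set F' : W → ℝ := fun x => if π x = v ∨ π x = u then F x else 0 with hF'
  have h1 : qf (restr K π (eg v u)) F = qf (restr K π (eg v u)) F' := by
    rw [qf_restr, qf_restr]
    refine sum_congr rfl fun x _ => sum_congr rfl fun y _ => ?_
    by_cases hx : π x = v ∨ π x = u
    · by_cases hy : π y = v ∨ π y = u
      · simp only [hF', if_pos hx, if_pos hy]
      · rw [adj_symm (eg v u), eg_zero hy]; ring
    · rw [eg_zero hx]; ring
  have h2 : ∀ a, a = v ∨ a = u → ∑ y ∈ univ.filter (fun y => π y = a), F' y =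
      ∑ y ∈ univ.filter (fun y => π y = a), F y := by
    intro a ha
    refine sum_congr rfl fun y hy => ?_
    have hy' := (mem_filter.1 hy).2
    simp only [hF']
    rw [if_pos (by rw [hy']; exact ha)]
  have h3 : qf (eg v u) (fun v => ∑ y ∈ univ.filter (fun y => π y = v), F' y) =
      qf (eg v u) (fun v => ∑ y ∈ univ.filter (fun y => π y = v), F y) := by
    unfold qf
    refine sum_congr rfl fun a _ => sum_congr rfl fun b _ => ?_
    beta_reduce
    by_cases ha : a = v ∨ a = u
    · by_cases hb : b = v ∨ b = u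
      · rw [h2 a ha, h2 b hb]
      · rw [adj_symm (eg v u), eg_zero hb]; ring
    · rw [eg_zero ha]; ring
  have h4 : ∑ x, F' x ^ 2 ≤ ∑ y ∈ univ.filter (fun y => π y = v), F y ^ 2 +
      ∑ y ∈ univ.filter (fun y => π y = u), F y ^ 2 := by
    rw [sum_filter, sum_filter, ← sum_add_distrib]
    refine sum_le_sum fun x _ => ?_
    simp only [hF']
    by_cases h5 : π x = v
    · by_cases h6 : π x = u
      · rw [if_pos (Or.inl h5), if_pos h5, if_pos h6]
        linarith [sq_nonneg (F x)]
      · rw [if_pos (Or.inl h5), if_pos h5, if_neg h6]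
        linarith
    · by_cases h6 : π x = u
      · rw [if_pos (Or.inr h6), if_neg h5, if_pos h6]
        linarith
      · rw [if_neg (not_or.2 ⟨h5, h6⟩), if_neg h5, if_neg h6]
        norm_num
  rw [h1, ← h3]
  exact (h.no v u F').trans (add_le_add_right (mul_le_mul_of_nonneg_left h4 hl) _)

lemma UCov.no_all (h : UCov K π q m lam) (hl : 0 ≤ lam) {G : SimpleGraph V} {d : ℕ}
    (reg : ∀ v, (nb G v).card = d) (F : W → ℝ) :
    qf (restr K π G) F ≤
      (m / q : ℝ) * qf G (fun v => ∑ y ∈ univ.filter (fun y => π y = v), F y) +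
        lam * d * ∑ x, F x ^ 2 := by
  set N : V → ℝ := fun v => ∑ y ∈ univ.filter (fun y => π y = v), F y ^ 2 with hN
  set f : V → ℝ := fun v => ∑ y ∈ univ.filter (fun y => π y = v), F y with hf
  have h1 : 2 * qf (restr K π G) F ≤ ∑ v, ∑ u, adj G v u *
      ((m / q : ℝ) * qf (eg v u) f + lam * (N v + N u)) := by
    rw [two_qf_restr]
    exact sum_le_sum fun v _ => sum_le_sum fun u _ =>
      mul_le_mul_of_nonneg_left (h.pair hl v u F) (adj_nonneg _ _ _)
  have h2 : ∑ v, ∑ u, adj G v u * ((m / q : ℝ) * qf (eg v u) f + lam * (N v + N u)) =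
      (m / q : ℝ) * ∑ v, ∑ u, adj G v u * qf (eg v u) f +
        lam * (∑ v, ∑ u, adj G v u * N v + ∑ v, ∑ u, adj G v u * N u) := by
    rw [mul_sum, ← sum_add_distrib, mul_sum, ← sum_add_distrib]
    refine sum_congr rfl fun v _ => ?_
    rw [mul_sum, ← sum_add_distrib, mul_sum, ← sum_add_distrib]
    refine sum_congr rfl fun u _ => ?_
    ring
  have h3 : ∑ v, ∑ u, adj G v u * N v = d * ∑ x, F x ^ 2 := by
    have : ∀ v, ∑ u, adj G v u * N v = d * N v := fun v => by
      rw [← sum_mul, sum_adj reg]
    simp_rw [this]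
    rw [← mul_sum, sum_fib π (fun x => F x ^ 2)]
  have h4 : ∑ v, ∑ u, adj G v u * N u = d * ∑ x, F x ^ 2 := by
    rw [sum_comm, ← h3]
    refine sum_congr rfl fun u _ => sum_congr rfl fun v _ => ?_
    rw [adj_symm]
  rw [h2, ← two_qf, h3, h4] at h1
  linarith

lemma UCov.yes_all (h : UCov K π q m lam) (G : SimpleGraph V) (f : V → ℝ) :
    qf (restr K π G) (fun x => f (π x)) = q * m * qf G f := by
  rw [qf_restr]
  have h1 : ∀ x, ∑ y, (adj K x y * f (π x) * f (π y)) * adj G (π x) (π y) =
      m * ∑ v, adj G (π x) v * f (π x) * f v := by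
    intro x
    rw [sum_fib π, mul_sum]
    refine sum_congr rfl fun v _ => ?_
    have h2 : ∀ y ∈ univ.filter (fun y => π y = v),
        (adj K x y * f (π x) * f (π y)) * adj G (π x) (π y) =
        adj K x y * (adj G (π x) v * f (π x) * f v) := by
      intro y hy
      rw [(mem_filter.1 hy).2]; ring
    rw [sum_congr rfl h2, ← sum_mul]
    by_cases hv : π x = v
    · rw [hv, adj_self]; ring
    · have h3 : ∑ y ∈ univ.filter (fun y => π y = v), adj K x y = m := by
        rw [← h.deg x v hv]
        unfold adj
        rw [sum_boole, filter_filter]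
        congr 2
        ext y
        simp only [mem_filter, mem_univ, true_and]
        tauto
      rw [h3]
  simp_rw [h1]
  rw [← mul_sum, sum_fib π]
  have h4 : ∀ u, ∑ x ∈ univ.filter (fun x => π x = u), ∑ v, adj G (π x) v * f (π x) * f v =
      q * ∑ v, adj G u v * f u * f v := by
    intro u
    have h5 : ∀ x ∈ univ.filter (fun x => π x = u), ∑ v, adj G (π x) v * f (π x) * f v =
        ∑ v, adj G u v * f u * f v := by
      intro x hx
      rw [(mem_filter.1 hx).2]
    rw [sum_congr rfl h5, sum_const, h.fib, nsmul_eq_mul]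
  simp_rw [h4]
  rw [← mul_sum]
  unfold qf
  ring

lemma UCov.reg_all (h : UCov K π q m lam) {G : SimpleGraph V} {d : ℕ}
    (reg : ∀ v, (nb G v).card = d) (x : W) : (nb (restr K π G) x).card = d * m := by
  have h1 : nb (restr K π G) x = (nb G (π x)).biUnion
      (fun v => univ.filter fun y => K.Adj x y ∧ π y = v) := by
    ext y
    simp only [nb, mem_filter, mem_univ, true_and, mem_biUnion]
    constructor
    · intro hy
      exact ⟨π y, hy.2, hy.1, rfl⟩
    · rintro ⟨v, hv, hy, rfl⟩
      exact ⟨hy, hv⟩
  rw [h1, card_biUnion]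
  · have h2 : ∀ v ∈ nb G (π x), (univ.filter fun y => K.Adj x y ∧ π y = v).card = m := by
      intro v hv
      have hv' : G.Adj (π x) v := (mem_filter.1 hv).2
      exact h.deg x v hv'.ne
    rw [sum_congr rfl h2, sum_const, reg, smul_eq_mul]
  · intro v _ u _ hvu
    rw [Function.onFun, disjoint_left]
    intro y hy hy'
    exact hvu ((mem_filter.1 hy).2.2.symm.trans (mem_filter.1 hy').2.2)

lemma UCov.card_eq (h : UCov K π q m lam) : Fintype.card W = q * Fintype.card V := by
  have : (univ : Finset W).card = ∑ v, (univ.filter fun x => π x = v).card :=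
    card_eq_sum_card_fiberwise (fun x _ => mem_coe.2 (mem_univ (π x)))
  rw [card_univ] at this
  rw [this]
  simp only [h.fib, sum_const, card_univ, smul_eq_mul]
  ring

lemma UCov.card_preimage (h : UCov K π q m lam) (S : Finset V) :
    (univ.filter fun x => π x ∈ S).card = q * S.card := by
  have h1 : (univ.filter fun x => π x ∈ S) = S.biUnion fun v => univ.filter fun x => π x = v := by
    ext x
    simp
  rw [h1, card_biUnion]
  · simp only [h.fib, sum_const, smul_eq_mul]
    ring
  · intro v _ u _ hvu
    rw [Function.onFun, disjoint_left]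
    intro y hy hy'
    exact hvu ((mem_filter.1 hy).2.symm.trans (mem_filter.1 hy').2)

/-- sets of vertices have preimages with the same proportion of inner edges -/
lemma UCov.ee_preimage (h : UCov K π q m lam) (G : SimpleGraph V) (S : Finset V) :
    ee (restr K π G) (univ.filter fun x => π x ∈ S) (univ.filter fun x => π x ∈ S) =
      q * m * ee G S S := by
  rw [← qf_ind, ← qf_ind]
  have := h.yes_all G (fun v => if v ∈ S then 1 else 0)
  rw [← this]
  congr 1
  funext x
  simp only [mem_filter, mem_univ, true_and]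

/-- the inner edges of sets of vertices of the cover -/
lemma UCov.ee_le (h : UCov K π q m lam) (hl : 0 ≤ lam) {G : SimpleGraph V} {d k : ℕ}
    (reg : ∀ v, (nb G v).card = d) {e : ℝ}
    (hno : ∀ S : Finset V, S.card = k → ee G S S ≤ e)
    (S' : Finset W) (hS' : S'.card = k * q) :
    ee (restr K π G) S' S' ≤ m * q * (e + ((d : ℝ) + 1) / 4) + lam * d * (k * q) := by
  have hq : (0 : ℝ) < q := by exact_mod_cast h.qpos
  rw [← qf_ind]
  set F : W → ℝ := fun x => if x ∈ S' then 1 else 0 with hF
  have h1 := h.no_all hl reg F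
  set f : V → ℝ := fun v => (∑ y ∈ univ.filter (fun y => π y = v), F y) / q with hf
  have h2 : (fun v => ∑ y ∈ univ.filter (fun y => π y = v), F y) = fun v => (q : ℝ) * f v := by
    funext v
    simp only [hf]
    field_simp
  have h3 : ∑ x, F x ^ 2 = k * q := by
    have : ∀ x, F x ^ 2 = if x ∈ S' then (1 : ℝ) else 0 := by
      intro x
      simp only [hF]
      split_ifs <;> norm_num
    simp_rw [this]
    rw [sum_boole, filter_mem_eq_inter, univ_inter, hS']
    push_cast; rfl
  have h4 : qf G (fun v => (q : ℝ) * f v) = q ^ 2 * qf G f := by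
    unfold qf
    rw [mul_sum]
    refine sum_congr rfl fun u _ => ?_
    rw [mul_sum]
    refine sum_congr rfl fun v _ => ?_
    ring
  rw [h2, h4, h3] at h1
  have hfeas : Feas f := by
    intro v
    have h5 : 0 ≤ ∑ y ∈ univ.filter (fun y => π y = v), F y := by
      refine sum_nonneg fun y _ => ?_
      simp only [hF]
      split_ifs <;> norm_num
    have h6 : ∑ y ∈ univ.filter (fun y => π y = v), F y ≤ q := by
      have : ∑ y ∈ univ.filter (fun y => π y = v), F y ≤
          ∑ _y ∈ univ.filter (fun y => π y = v), (1 : ℝ) := by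
        refine sum_le_sum fun y _ => ?_
        simp only [hF]
        split_ifs <;> norm_num
      rw [sum_const, h.fib, nsmul_eq_mul, mul_one] at this
      exact this
    exact ⟨div_nonneg h5 hq.le, (div_le_one hq).2 h6⟩
  have hsum : ∑ v, f v = k := by
    simp only [hf]
    rw [← sum_div, ← sum_fib π F]
    have : ∑ x, F x = k * q := by
      simp only [hF]
      rw [sum_boole, filter_mem_eq_inter, univ_inter, hS']
      push_cast; rfl
    rw [this]
    field_simp
  obtain ⟨S, hS, hle⟩ := rounding G reg f hfeas hsum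
  have h5 := hno S hS
  have h6 : (m / q : ℝ) * (q ^ 2 * qf G f) = m * q * qf G f := by
    field_simp
  rw [h6] at h1
  have h7 : (m : ℝ) * q * qf G f ≤ m * q * (e + ((d : ℝ) + 1) / 4) :=
    mul_le_mul_of_nonneg_left (by linarith) (by positivity)
  linarith

end

end Pool.Agent.V7H96.GC
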